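import Mathlib
import Pool.Agent.H318R2.Cr.Defs

/-! # Sieved random models: probabilities (helper150) -/

set_option autoImplicit false

namespace Pool.Agent.W150.SM

open Finset MeasureTheory ProbabilityTheory Filter Topology
open Pool.Agent.H318R2.Cr

variable {Ω : Type*} [MeasurableSpace Ω] {μ : Measure Ω}

/-- Borel-Cantelli with real bounds -/
theorem bc [IsFiniteMeasure μ] {s : ℕ → Set Ω} {b : ℕ → ℝ} (hb : Summable b)
    (h : ∀ᶠ k in atTop, μ.real (s k) ≤ b k) : ∀ᵐ ω ∂μ, ∀ᶠ k in atTop, ω ∉ s k := by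
  obtain ⟨N, hN⟩ := eventually_atTop.1 h
  have h1 : ∑' k, μ (s (k + N)) ≠ ⊤ := by
    have h2 : ∀ k, μ (s (k + N)) ≤ ENNReal.ofReal (b (k + N)) := by
      intro k
      rw [← ENNReal.ofReal_toReal (measure_ne_top μ _)]
      exact ENNReal.ofReal_le_ofReal (hN _ (Nat.le_add_left _ _))
    have h3 : ∀ k, 0 ≤ b (k + N) := fun k => measureReal_nonneg.trans (hN _ (Nat.le_add_left _ _))
    refine ne_top_of_le_ne_top ?_ (ENNReal.tsum_le_tsum h2)
    rw [← ENNReal.ofReal_tsum_of_nonneg h3 ((summable_nat_add_iff N).2 hb)]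
    exact ENNReal.ofReal_ne_top
  filter_upwards [ae_eventually_notMem h1] with ω hω
  obtain ⟨M, hM⟩ := eventually_atTop.1 hω
  refine eventually_atTop.2 ⟨M + N, fun k hk => ?_⟩
  have := hM (k - N) (by omega)
  rwa [Nat.sub_add_cancel (by omega)] at this

theorem meas_compl_inter {ι : Type*} {A : ι → Set Ω} (h : iIndepSet A μ) (I : Finset ι) :
    μ (⋂ n ∈ I, (A n)ᶜ) = ∏ n ∈ I, μ ((A n)ᶜ) := by
  have h1 := (iIndepSet_iff_iIndep _ _).1 h
  exact h1.meas_biInter fun i _ =>
    (MeasurableSpace.measurableSet_generateFrom (Set.mem_singleton _)).compl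

/-- the event that nothing of `I` is kept -/
def Emp (A : ℕ → Set Ω) (I : Finset ℕ) : Set Ω := ⋂ n ∈ I, (A n)ᶜ

theorem mem_Emp {A : ℕ → Set Ω} {I : Finset ℕ} {ω : Ω} : ω ∈ Emp A I ↔ ∀ n ∈ I, ω ∉ A n := by
  simp [Emp]

theorem measurable_Emp {A : ℕ → Set Ω} (hA : ∀ n, MeasurableSet (A n)) (I : Finset ℕ) :
    MeasurableSet (Emp A I) :=
  Finset.measurableSet_biInter _ fun n _ => (hA n).compl

theorem keepProb_nonneg (z : ℕ → ℕ) (n : ℕ) (hV : 0 ≤ V (z (Nat.log 2 n))) : 0 ≤ keepProb z n := by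
  unfold keepProb
  split_ifs
  · refine le_min zero_le_one (div_nonneg zero_le_one (mul_nonneg hV ?_))
    exact Real.log_natCast_nonneg n
  · exact le_rfl

theorem keepProb_le_one (z : ℕ → ℕ) (n : ℕ) : keepProb z n ≤ 1 := by
  unfold keepProb
  split_ifs
  · exact min_le_left _ _
  · exact zero_le_one

theorem real_Emp {z : ℕ → ℕ} {A : ℕ → Set Ω} [IsProbabilityMeasure μ] (h : IsSievedModel μ z A)
    (hV : ∀ k, 0 ≤ V k) (I : Finset ℕ) : μ.real (Emp A I) = ∏ n ∈ I, (1 - keepProb z n) := by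
  unfold Emp
  rw [Measure.real, meas_compl_inter h.indep, ENNReal.toReal_prod]
  refine Finset.prod_congr rfl fun n _ => ?_
  rw [← Measure.real, probReal_compl_eq_one_sub (h.measurable n), Measure.real, h.prob n,
    ENNReal.toReal_ofReal (keepProb_nonneg z n (hV _))]

theorem indep_Emp {ι : Type*} {z : ℕ → ℕ} {A : ℕ → Set Ω} [IsProbabilityMeasure μ]
    (h : IsSievedModel μ z A) (hV : ∀ k, 0 ≤ V k) (I : ι → Finset ℕ)
    (hI : Pairwise (fun i j => Disjoint (I i) (I j))) : iIndepSet (fun i => Emp A (I i)) μ := by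
  classical
  rw [iIndepSet_iff_meas_biInter fun i => measurable_Emp h.measurable (I i)]
  intro s
  have e : (⋂ i ∈ s, Emp A (I i)) = Emp A (s.biUnion I) := by
    ext ω
    simp only [Set.mem_iInter, mem_Emp, mem_biUnion]
    constructor
    · rintro h1 n ⟨i, hi, hn⟩
      exact h1 i hi n hn
    · intro h1 i hi n hn
      exact h1 n ⟨i, hi, hn⟩
  rw [e]
  unfold Emp
  rw [meas_compl_inter h.indep, Finset.prod_biUnion (fun i _ j _ hij => hI hij)]
  refine Finset.prod_congr rfl fun i _ => ?_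
  rw [meas_compl_inter h.indep]

/-- if each of the events `Emp A (I i)`, `i ∈ T`, has probability at least `q`, then the probability that
none of them occurs is at most `exp (- |T| q)` -/
theorem none_le {ι : Type*} {z : ℕ → ℕ} {A : ℕ → Set Ω} [IsProbabilityMeasure μ]
    (h : IsSievedModel μ z A) (hV : ∀ k, 0 ≤ V k) (I : ι → Finset ℕ)
    (hI : Pairwise (fun i j => Disjoint (I i) (I j))) (T : Finset ι) (q : ℝ)
    (hq : ∀ i ∈ T, q ≤ μ.real (Emp A (I i))) :
    μ.real (⋂ i ∈ T, (Emp A (I i))ᶜ) ≤ Real.exp (-(T.card * q)) := by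
  rw [Measure.real, meas_compl_inter (indep_Emp h hV I hI), ENNReal.toReal_prod]
  have e : Real.exp (-(T.card * q)) = ∏ _i ∈ T, Real.exp (-q) := by
    rw [Finset.prod_const, ← Real.exp_nat_mul]
    congr 1
    ring
  rw [e]
  refine Finset.prod_le_prod (fun i _ => ENNReal.toReal_nonneg) fun i hi => ?_
  rw [← Measure.real, probReal_compl_eq_one_sub (measurable_Emp h.measurable _)]
  have h1 := hq i hi
  have h2 := Real.add_one_le_exp (-q)
  linarith

end Pool.Agent.W150.SM
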