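import Mathlib
import Pool.Agent.H318R2.Cr.Defs

/-! # The limsup of normalised gaps of a set, from long empty intervals (helper150) -/

set_option autoImplicit false

namespace Pool.Agent.W150.SM

open Finset Filter Topology
open Pool.Agent.H318R2.Cr

/-- long empty intervals give a lower bound for the limsup -/
theorem limsup_ge {S : Set ℕ} (hS : S.Infinite) {lam : ℝ}
    (h : ∃ᶠ k : ℕ in atTop, ∃ a H : ℕ, 2 ^ k ≤ a ∧ a ≤ 2 ^ (k + 1) ∧
      lam * (((k : ℝ) + 1) * Real.log 2) ^ 2 ≤ H ∧ ∀ n ∈ Ioc a (a + H), n ∉ S) :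
    (lam : EReal) ≤ cramerLimsup S := by
  classical
  unfold cramerLimsup
  refine Filter.le_limsup_of_frequently_le ?_ (by isBoundedDefault)
  · rw [frequently_atTop]
    intro N
    have hinf : (Set.ofPred (fun n : ℕ => n ∈ S)).Infinite := hS
    obtain ⟨k, hk, a, H, h1, h2, h3, h4⟩ := (frequently_atTop.1 h) (Nat.nth (· ∈ S) (N + 3))
    have h5 : Nat.nth (· ∈ S) (N + 3) < a + 1 := by
      have : k < 2 ^ k := Nat.lt_two_pow_self
      omega
    have h6 : N + 3 < Nat.count (· ∈ S) (a + 1) := (Nat.lt_nth_iff_count_lt hinf).2 h5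
    obtain ⟨i, hi⟩ : ∃ i, Nat.count (· ∈ S) (a + 1) = i + 1 := ⟨Nat.count (· ∈ S) (a + 1) - 1, by omega⟩
    refine ⟨i, by omega, ?_⟩
    have h7 : Nat.nth (· ∈ S) i < a + 1 := Nat.nth_lt_of_lt_count (by omega)
    have h8 : a + 1 ≤ Nat.nth (· ∈ S) (i + 1) := by
      have := Nat.le_nth_count hinf (a + 1)
      rwa [hi] at this
    have h9 : a + H < Nat.nth (· ∈ S) (i + 1) := by
      by_contra hcon
      exact h4 _ (mem_Ioc.2 ⟨by omega, by omega⟩) (Nat.nth_mem_of_infinite hinf (i + 1))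
    have h10 : i ≤ Nat.nth (· ∈ S) i := (Nat.nth_strictMono hinf).le_apply
    have h11 : 2 ≤ Nat.nth (· ∈ S) i := by omega
    set q := Nat.nth (· ∈ S) i with hq
    set q' := Nat.nth (· ∈ S) (i + 1) with hq'
    have hl : 0 < Real.log q := Real.log_pos (by exact_mod_cast (by omega : 1 < q))
    have hl2 : Real.log q ≤ ((k : ℝ) + 1) * Real.log 2 := by
      have e : ((k : ℝ) + 1) * Real.log 2 = Real.log ((2 ^ (k + 1) : ℕ) : ℝ) := by
        push_cast
        rw [Real.log_pow]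
        push_cast
        ring
      rw [e]
      exact Real.log_le_log (by exact_mod_cast (by omega : 0 < q)) (by exact_mod_cast (by omega : q ≤ 2 ^ (k + 1)))
    have hHq : (H : ℝ) ≤ (q' : ℝ) - q := by
      have : (a : ℝ) + H < q' := by exact_mod_cast h9
      have h12 : (q : ℝ) ≤ a := by exact_mod_cast (by omega : q ≤ a)
      linarith
    rw [EReal.coe_le_coe_iff, le_div_iff₀ (by positivity)]
    rcases le_or_gt lam 0 with hneg | hpos
    · have h13 : (0 : ℝ) ≤ H := Nat.cast_nonneg H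
      nlinarith [sq_nonneg (Real.log q)]
    · calc lam * Real.log q ^ 2 ≤ lam * (((k : ℝ) + 1) * Real.log 2) ^ 2 := by gcongr
        _ ≤ (H : ℝ) := h3
        _ ≤ _ := hHq

/-- short gaps give an upper bound for the limsup -/
theorem limsup_le {S : Set ℕ} (hS : S.Infinite) {lam : ℝ} (H G : ℕ → ℕ)
    (h1 : ∀ᶠ k : ℕ in atTop, (H k : ℝ) + 1 ≤ lam * ((k : ℝ) * Real.log 2) ^ 2)
    (h2 : ∀ᶠ k : ℕ in atTop, (G k : ℝ) + G (k + 1) + 1 ≤ lam * ((k : ℝ) * Real.log 2) ^ 2)
    (ha : ∀ᶠ k : ℕ in atTop, ∀ a : ℕ, 2 ^ k ≤ a → a + H k < 2 ^ (k + 1) → ∃ n ∈ Ioc a (a + H k), n ∈ S)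
    (hb : ∀ᶠ k : ℕ in atTop, ∃ n ∈ S, 2 ^ k ≤ n ∧ n ≤ 2 ^ k + G k)
    (hc : ∀ᶠ k : ℕ in atTop, ∃ n ∈ S, 2 ^ (k + 1) ≤ n + G k + 1 ∧ n < 2 ^ (k + 1)) :
    cramerLimsup S ≤ (lam : EReal) := by
  classical
  unfold cramerLimsup
  have hinf : (Set.ofPred (fun n : ℕ => n ∈ S)).Infinite := hS
  obtain ⟨k₀, hk₀⟩ := eventually_atTop.1 ((((h1.and h2).and ha).and hb).and hc)
  apply Filter.limsup_le_of_le
  · exact Filter.isCobounded_le_of_bot
  · refine eventually_atTop.2 ⟨2 ^ (k₀ + 1), fun i hi => ?_⟩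
    have h10 : i ≤ Nat.nth (· ∈ S) i := (Nat.nth_strictMono hinf).le_apply
    set q := Nat.nth (· ∈ S) i with hq
    set q' := Nat.nth (· ∈ S) (i + 1) with hq'
    have hq2 : 2 ^ (k₀ + 1) ≤ q := hi.trans h10
    have hq0 : q ≠ 0 := by
      have : 0 < 2 ^ (k₀ + 1) := by positivity
      omega
    set k := Nat.log 2 q with hk
    have hkk : k₀ + 1 ≤ k := (Nat.le_log_iff_pow_le (by norm_num) hq0).2 hq2
    have hk1 : 2 ^ k ≤ q := Nat.pow_log_le_self 2 hq0
    have hk2 : q < 2 ^ (k + 1) := Nat.lt_pow_succ_log_self (by norm_num) q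
    obtain ⟨⟨⟨⟨c1, c2⟩, c3⟩, c4⟩, c5⟩ := hk₀ k (by omega)
    obtain ⟨⟨⟨⟨d1, d2⟩, d3⟩, d4⟩, d5⟩ := hk₀ (k + 1) (by omega)
    have hqS : q ∈ S := Nat.nth_mem_of_infinite hinf i
    have key : ∀ s ∈ S, q < s → q' ≤ s := by
      intro s hs hqs
      by_contra hcon
      have := Nat.le_nth_of_lt_nth_succ (p := fun n => n ∈ S) (k := i) (a := s) (by omega) hs
      omega
    have hgap : (q' : ℝ) - q ≤ lam * ((k : ℝ) * Real.log 2) ^ 2 := by
      by_cases hcase : q + H k < 2 ^ (k + 1)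
      · obtain ⟨s, hs1, hs2⟩ := c3 q hk1 hcase
        rw [mem_Ioc] at hs1
        have h3 := key s hs2 hs1.1
        have h4 : (q' : ℝ) ≤ q + H k := by exact_mod_cast (by omega : q' ≤ q + H k)
        linarith
      · obtain ⟨n, hn1, hn2, hn3⟩ := c5
        by_cases hnq : q < n
        · have h3 := key n hn1 hnq
          have h4 : (q' : ℝ) ≤ q + H k := by exact_mod_cast (by omega : q' ≤ q + H k)
          linarith
        · obtain ⟨s, hs1, hs2, hs3⟩ := d4
          have h3 := key s hs1 (by omega)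
          have h4 : (q' : ℝ) ≤ q + (G k + G (k + 1) + 1) := by
            exact_mod_cast (by omega : q' ≤ q + (G k + G (k + 1) + 1))
          linarith
    have hl2 : (k : ℝ) * Real.log 2 ≤ Real.log q := by
      have e : (k : ℝ) * Real.log 2 = Real.log ((2 ^ k : ℕ) : ℝ) := by
        push_cast
        rw [Real.log_pow]
      rw [e]
      exact Real.log_le_log (by positivity) (by exact_mod_cast hk1)
    have hkpos : (0 : ℝ) < (k : ℝ) * Real.log 2 := by
      have : (0 : ℝ) < k := by exact_mod_cast (by omega : 0 < k)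
      have := Real.log_pos (show (1 : ℝ) < 2 by norm_num)
      positivity
    have hlam : 0 ≤ lam := by
      by_contra hcon
      push Not at hcon
      have : (0 : ℝ) ≤ H k := Nat.cast_nonneg _
      have h5 : lam * ((k : ℝ) * Real.log 2) ^ 2 ≤ 0 := mul_nonpos_of_nonpos_of_nonneg hcon.le (sq_nonneg _)
      linarith
    have hl0 : 0 < Real.log q := hkpos.trans_le hl2
    rw [EReal.coe_le_coe_iff, div_le_iff₀ (by positivity)]
    calc (q' : ℝ) - q ≤ lam * ((k : ℝ) * Real.log 2) ^ 2 := hgap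
      _ ≤ lam * Real.log q ^ 2 := by gcongr

end Pool.Agent.W150.SM
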