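import Mathlib
import Pool.Agent.H318R2.Cr.Low
import Pool.Agent.W150.SM.Prob
import Pool.Agent.W150.SM.Det

/-! # Sieved random models: lower bound engine (helper150) -/

set_option autoImplicit false

namespace Pool.Agent.W150.SM

open Finset MeasureTheory ProbabilityTheory Filter Topology
open Pool.Agent.H318R2.Cr

theorem V_nonneg (z : ℕ) : 0 ≤ V z := (V_pos z).le

theorem V_small {z : ℕ} (hz : z < 2) : V z = 1 := by
  unfold V
  have : Pz z = ∅ := by
    ext p
    rw [mem_Pz]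
    constructor
    · rintro ⟨h1, h2⟩
      have := h1.two_le
      omega
    · intro h
      simp at h
  rw [this]
  simp

/-- `V (z k) * k → ∞` if `log (z k) = o(k)` -/
theorem Vk_tendsto {z : ℕ → ℕ} (hz : Tendsto (fun k : ℕ => Real.log (z k) / k) atTop (𝓝 0)) :
    Tendsto (fun k : ℕ => V (z k) * k) atTop atTop := by
  obtain ⟨c₁, c₂, hc₁, hc₁₂, hV⟩ := cz_bounds
  rw [tendsto_atTop]
  intro M
  have h1 : ∀ᶠ k : ℕ in atTop, Real.log (z k) / k ≤ c₁ / (|M| + 1) :=
    (hz.eventually (ge_mem_nhds (show (0 : ℝ) < c₁ / (|M| + 1) by positivity)))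
  filter_upwards [h1, eventually_ge_atTop (⌈|M|⌉₊ + 1)] with k h2 h3
  have hk : |M| ≤ k := (Nat.le_ceil _).trans (by exact_mod_cast (by omega : ⌈|M|⌉₊ ≤ k))
  have hk0 : (0 : ℝ) < k := by exact_mod_cast (by omega : 0 < k)
  have hM : M ≤ |M| := le_abs_self M
  rcases lt_or_ge (z k) 2 with h4 | h4
  · rw [V_small h4]
    linarith
  · have h5 := (hV (z k) h4).1
    have h6 : 0 < Real.log (z k) := Real.log_pos (by exact_mod_cast (by omega : 1 < z k))
    rw [div_le_iff₀ hk0] at h2
    have h7 : Real.log (z k) * (|M| + 1) ≤ c₁ * k := by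
      have h8 := mul_le_mul_of_nonneg_right h2 (show 0 ≤ |M| + 1 by positivity)
      calc Real.log (z k) * (|M| + 1) ≤ c₁ / (|M| + 1) * k * (|M| + 1) := h8
        _ = c₁ * k := by field_simp
    have h9 : c₁ * k ≤ V (z k) * k * Real.log (z k) := by nlinarith
    have h10 : Real.log (z k) * (|M| + 1) ≤ Real.log (z k) * (V (z k) * k) := by linarith
    have h11 := le_of_mul_le_mul_left h10 h6
    linarith

/-- the length of the intervals -/
noncomputable def HH (lam : ℝ) (k : ℕ) : ℕ := ⌈lam * (((k : ℝ) + 1) * Real.log 2) ^ 2⌉₊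

/-- many disjoint intervals of length `HH lam k` in the block `[2^k, 2^(k+1))` which have few candidates -/
def Good (z : ℕ → ℕ) (lam κ η : ℝ) (k : ℕ) : Prop :=
  ∃ T : Finset ℕ, (2 : ℝ) ^ ((1 - η) * k) ≤ T.card ∧
    (∀ a ∈ T, 2 ^ k ≤ a ∧ a + HH lam k < 2 ^ (k + 1)) ∧
    (∀ a ∈ T, ∀ b ∈ T, a < b → a + HH lam k ≤ b) ∧
    ∀ a ∈ T, (cnt (z k) a (HH lam k) : ℝ) ≤ κ * (HH lam k * V (z k))

theorem log2_eq {k n : ℕ} (h1 : 2 ^ k ≤ n) (h2 : n < 2 ^ (k + 1)) : Nat.log 2 n = k :=
  (Nat.log_eq_iff (Or.inr ⟨by norm_num, by have := Nat.two_pow_pos k; omega⟩)).2 ⟨h1, h2⟩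

theorem logn_ge {k n : ℕ} (h1 : 2 ^ k ≤ n) : (k : ℝ) * Real.log 2 ≤ Real.log n := by
  have e : (k : ℝ) * Real.log 2 = Real.log ((2 ^ k : ℕ) : ℝ) := by
    push_cast
    rw [Real.log_pow]
  rw [e]
  exact Real.log_le_log (by positivity) (by exact_mod_cast h1)

theorem logn_le {k n : ℕ} (h0 : 0 < n) (h1 : n ≤ 2 ^ k) : Real.log n ≤ (k : ℝ) * Real.log 2 := by
  have e : (k : ℝ) * Real.log 2 = Real.log ((2 ^ k : ℕ) : ℝ) := by
    push_cast
    rw [Real.log_pow]
  rw [e]
  exact Real.log_le_log (by exact_mod_cast h0) (by exact_mod_cast h1)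

/-- lower bound for the probability of an empty interval -/
theorem Emp_ge {Ω : Type*} [MeasurableSpace Ω] {μ : Measure Ω} [IsProbabilityMeasure μ]
    {z : ℕ → ℕ} {A : ℕ → Set Ω} (h : IsSievedModel μ z A) {k a H : ℕ} (hk : 0 < k) (h1 : 2 ^ k ≤ a)
    (h2 : a + H < 2 ^ (k + 1)) {ρ : ℝ} (hρ : ρ = 1 / (V (z k) * (k * Real.log 2))) (hρ2 : ρ ≤ 1 / 2) :
    Real.exp (-(cnt (z k) a H * (ρ + 2 * ρ ^ 2))) ≤ μ.real (Emp A (Ioc a (a + H))) := by
  classical
  have hl2 : 0 < Real.log 2 := Real.log_pos (by norm_num)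
  have hk' : (0 : ℝ) < k := by exact_mod_cast hk
  have hV := V_pos (z k)
  have hρ0 : 0 ≤ ρ := by rw [hρ]; positivity
  rw [real_Emp h V_nonneg]
  have e : Real.exp (-(cnt (z k) a H * (ρ + 2 * ρ ^ 2))) =
      ∏ n ∈ Ioc a (a + H), (if Rgh (z k) n then Real.exp (-ρ - 2 * ρ ^ 2) else 1) := by
    rw [prod_ite, prod_const_one, mul_one, prod_const, ← Real.exp_nat_mul]
    congr 1
    unfold cnt
    ring
  rw [e]
  refine prod_le_prod (fun n _ => by split_ifs <;> positivity) fun n hn => ?_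
  rw [mem_Ioc] at hn
  have hlog : Nat.log 2 n = k := log2_eq (by omega) (by omega)
  unfold keepProb
  rw [hlog]
  split_ifs with hr
  · have h3 := exp_le_one_sub hρ0 hρ2
    have h4 : min 1 (1 / (V (z k) * Real.log n)) ≤ ρ := by
      refine (min_le_right _ _).trans ?_
      rw [hρ]
      have := logn_ge (k := k) (n := n) (by omega)
      gcongr
    linarith
  · simp

/-- growth facts -/
theorem ev_growth {z : ℕ → ℕ} (hz : Tendsto (fun k : ℕ => Real.log (z k) / k) atTop (𝓝 0)) (lam κ η : ℝ)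
    (hlam : 0 < lam) (hκ : 0 < κ) (hη : 0 < η) : ∀ᶠ k : ℕ in atTop, 0 < k ∧
      1 / (V (z k) * (k * Real.log 2)) ≤ 1 / 2 ∧
      κ * HH lam k * (1 + 2 * (1 / (V (z k) * (k * Real.log 2)))) / (k * Real.log 2) ≤
        κ * lam * (1 + η) * (k * Real.log 2) := by
  have hl2 : 0 < Real.log 2 := Real.log_pos (by norm_num)
  -- HH / (k log 2)^2 → lam
  have t1 : Tendsto (fun k : ℕ => (lam * (((k : ℝ) + 1) * Real.log 2) ^ 2 + 1) / ((k : ℝ) * Real.log 2) ^ 2)
      atTop (𝓝 lam) := by
    have t2 : Tendsto (fun k : ℕ => (1 + 1 / (k : ℝ)) ^ 2 * lam + (1 / (k : ℝ)) ^ 2 * (1 / (Real.log 2) ^ 2))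
        atTop (𝓝 ((1 + 0) ^ 2 * lam + 0 ^ 2 * (1 / (Real.log 2) ^ 2))) := by
      have h0 := tendsto_one_div_atTop_nhds_zero_nat (𝕜 := ℝ)
      exact ((((tendsto_const_nhds.add h0).pow 2).mul_const lam).add ((h0.pow 2).mul_const _))
    have e : (1 + 0) ^ 2 * lam + 0 ^ 2 * (1 / (Real.log 2) ^ 2) = lam := by ring
    rw [e] at t2
    refine t2.congr' ?_
    filter_upwards [eventually_gt_atTop 0] with k hk
    have hk' : (0 : ℝ) < k := by exact_mod_cast hk
    field_simp
  have t3 : Tendsto (fun k : ℕ => 1 / (V (z k) * ((k : ℝ) * Real.log 2))) atTop (𝓝 0) := by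
    have h4 : Tendsto (fun k : ℕ => V (z k) * k * Real.log 2) atTop atTop :=
      (Vk_tendsto hz).atTop_mul_const hl2
    have h5 := tendsto_inv_atTop_zero.comp h4
    refine h5.congr fun k => ?_
    simp only [Function.comp_apply, one_div]
    congr 1
    ring
  have t4 : Tendsto (fun k : ℕ => (lam * (((k : ℝ) + 1) * Real.log 2) ^ 2 + 1) / ((k : ℝ) * Real.log 2) ^ 2 *
      (1 + 2 * (1 / (V (z k) * ((k : ℝ) * Real.log 2))))) atTop (𝓝 (lam * (1 + 2 * 0))) :=
    t1.mul (tendsto_const_nhds.add (t3.const_mul 2))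
  have e4 : lam * (1 + 2 * 0) = lam := by ring
  rw [e4] at t4
  have h6 : lam < lam * (1 + η) := by nlinarith
  filter_upwards [eventually_gt_atTop 0, t3.eventually (ge_mem_nhds (show (0 : ℝ) < 1 / 2 by norm_num)),
    t4.eventually (ge_mem_nhds h6)] with k hk h7 h8
  refine ⟨hk, h7, ?_⟩
  have hk' : (0 : ℝ) < k := by exact_mod_cast hk
  have hV := V_pos (z k)
  have hH : (HH lam k : ℝ) ≤ lam * (((k : ℝ) + 1) * Real.log 2) ^ 2 + 1 :=
    (Nat.ceil_lt_add_one (by positivity)).le
  set R := 1 + 2 * (1 / (V (z k) * ((k : ℝ) * Real.log 2))) with hR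
  have hR0 : 0 ≤ R := by rw [hR]; positivity
  rw [div_mul_eq_mul_div, div_le_iff₀ (by positivity)] at h8
  rw [div_le_iff₀ (by positivity)]
  calc κ * HH lam k * R ≤ κ * (lam * (((k : ℝ) + 1) * Real.log 2) ^ 2 + 1) * R := by gcongr
    _ = κ * ((lam * (((k : ℝ) + 1) * Real.log 2) ^ 2 + 1) * R) := by ring
    _ ≤ κ * (lam * (1 + η) * ((k : ℝ) * Real.log 2) ^ 2) := by gcongr
    _ = κ * lam * (1 + η) * (k * Real.log 2) * (k * Real.log 2) := by ring

/-- the lower bound engine -/
theorem lower_engine {Ω : Type*} [MeasurableSpace Ω] {μ : Measure Ω} [IsProbabilityMeasure μ]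
    {z : ℕ → ℕ} (hz : Tendsto (fun k : ℕ => Real.log (z k) / k) atTop (𝓝 0)) {A : ℕ → Set Ω}
    (h : IsSievedModel μ z A) (hinf : ∀ᵐ ω ∂μ, {n | ω ∈ A n}.Infinite) {lam κ : ℝ} (hlam : 0 < lam)
    (hκ : 0 < κ) (hκl : κ * lam < 1) (hG : ∀ η : ℝ, 0 < η → ∃ᶠ k in atTop, Good z lam κ η k) :
    ∀ᵐ ω ∂μ, (lam : EReal) ≤ cramerLimsup {n | ω ∈ A n} := by
  classical
  have hl2 : 0 < Real.log 2 := Real.log_pos (by norm_num)
  obtain ⟨η, hη0, hη⟩ : ∃ η : ℝ, 0 < η ∧ η + κ * lam * (1 + η) < 1 := by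
    refine ⟨(1 - κ * lam) / 4, by linarith, ?_⟩
    have h0 : 0 < κ * lam := by positivity
    nlinarith
  set c := 1 - η - κ * lam * (1 + η) with hc
  have hc0 : 0 < c := by linarith
  have hev := ev_growth hz lam κ η hlam hκ hη0
  -- the bad events
  set T : ℕ → Finset ℕ := fun k => if hk : Good z lam κ η k then hk.choose else ∅ with hT
  set F : ℕ → Set Ω := fun k => if Good z lam κ η k then
    ⋂ a ∈ T k, (Emp A (Ioc a (a + HH lam k)))ᶜ else ∅ with hF
  have hsum : Summable (fun k : ℕ => Real.exp (-(c * Real.log 2 * k))) := by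
    have h1 : (fun k : ℕ => Real.exp (-(c * Real.log 2 * k))) = fun k : ℕ => (Real.exp (-(c * Real.log 2))) ^ k := by
      ext k
      rw [← Real.exp_nat_mul]
      congr 1
      ring
    rw [h1]
    exact summable_geometric_of_lt_one (Real.exp_pos _).le (by rw [Real.exp_lt_one_iff]; nlinarith)
  have hb : ∀ᶠ k in atTop, μ.real (F k) ≤ Real.exp (-(c * Real.log 2 * k)) := by
    filter_upwards [hev] with k hk
    obtain ⟨hk0, hk1, hk2⟩ := hk
    by_cases hg : Good z lam κ η k
    · have hFk : F k = ⋂ a ∈ T k, (Emp A (Ioc a (a + HH lam k)))ᶜ := by rw [hF]; simp only [if_pos hg]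
      have hTk : T k = hg.choose := by rw [hT]; simp only [dif_pos hg]
      obtain ⟨g1, g2, g3, g4⟩ := hg.choose_spec
      rw [← hTk] at g1 g2 g3 g4
      have hk' : (0 : ℝ) < k := by exact_mod_cast hk0
      have hV := V_pos (z k)
      set ρ := 1 / (V (z k) * (k * Real.log 2)) with hρ
      have hρ0 : 0 ≤ ρ := by rw [hρ]; positivity
      -- each probability
      have hq : ∀ a ∈ T k, Real.exp (-(κ * lam * (1 + η) * (k * Real.log 2))) ≤
          μ.real (Emp A (Ioc a (a + HH lam k))) := by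
        intro a ha
        refine le_trans ?_ (Emp_ge h hk0 (g2 a ha).1 (g2 a ha).2 hρ hk1)
        apply Real.exp_le_exp.2
        rw [neg_le_neg_iff]
        calc (cnt (z k) a (HH lam k) : ℝ) * (ρ + 2 * ρ ^ 2)
            ≤ κ * (HH lam k * V (z k)) * (ρ + 2 * ρ ^ 2) := by
              have := g4 a ha
              gcongr
          _ = κ * HH lam k * (1 + 2 * ρ) * (V (z k) * ρ) := by ring
          _ = κ * HH lam k * (1 + 2 * ρ) / (k * Real.log 2) := by
              rw [hρ]
              field_simp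
          _ ≤ _ := hk2
      -- reindex the disjoint intervals
      set I : ℕ → Finset ℕ := fun a => if a ∈ T k then Ioc a (a + HH lam k) else ∅ with hI
      have hdis : Pairwise (fun i j => Disjoint (I i) (I j)) := by
        intro i j hij
        rw [hI]
        dsimp only
        split_ifs with hi hj hj
        · rw [Finset.disjoint_left]
          intro x hx hx'
          rw [mem_Ioc] at hx hx'
          rcases lt_or_gt_of_ne hij with h5 | h5
          · have := g3 i hi j hj h5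
            omega
          · have := g3 j hj i hi h5
            omega
        · exact disjoint_empty_right _
        · exact disjoint_empty_left _
        · exact disjoint_empty_left _
      have hIe : ∀ a ∈ T k, I a = Ioc a (a + HH lam k) := fun a ha => by rw [hI]; simp only [if_pos ha]
      have hn := none_le h V_nonneg I hdis (T k) _ (fun a ha => by rw [hIe a ha]; exact hq a ha)
      have e : (⋂ a ∈ T k, (Emp A (I a))ᶜ) = ⋂ a ∈ T k, (Emp A (Ioc a (a + HH lam k)))ᶜ := by
        refine Set.iInter₂_congr fun a ha => ?_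
        rw [hIe a ha]
      rw [e] at hn
      rw [hFk]
      refine hn.trans ?_
      apply Real.exp_le_exp.2
      rw [neg_le_neg_iff]
      have e2 : (2 : ℝ) ^ ((1 - η) * k) = Real.exp ((1 - η) * k * Real.log 2) := by
        rw [Real.rpow_def_of_pos (by norm_num)]
        congr 1
        ring
      calc c * Real.log 2 * k ≤ Real.exp (c * Real.log 2 * k) := by
            have := Real.add_one_le_exp (c * Real.log 2 * k)
            linarith
        _ = Real.exp ((1 - η) * k * Real.log 2) * Real.exp (-(κ * lam * (1 + η) * (k * Real.log 2))) := by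
            rw [← Real.exp_add]
            congr 1
            rw [hc]
            ring
        _ ≤ (T k).card * Real.exp (-(κ * lam * (1 + η) * (k * Real.log 2))) := by
            rw [← e2]
            gcongr
    · have hFk : F k = ∅ := by rw [hF]; simp only [if_neg hg]
      rw [hFk]
      simp [Real.exp_nonneg]
  filter_upwards [bc hsum hb, hinf] with ω hω hωi
  apply limsup_ge hωi
  have h5 := (hG η hη0).and_eventually hω
  refine h5.mono fun k hk => ?_
  obtain ⟨hg, hnF⟩ := hk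
  have hFk : F k = ⋂ a ∈ T k, (Emp A (Ioc a (a + HH lam k)))ᶜ := by rw [hF]; simp only [if_pos hg]
  have hTk : T k = hg.choose := by rw [hT]; simp only [dif_pos hg]
  obtain ⟨g1, g2, g3, g4⟩ := hg.choose_spec
  rw [← hTk] at g1 g2 g3 g4
  rw [hFk] at hnF
  simp only [Set.mem_iInter, Set.mem_compl_iff, not_forall, not_not] at hnF
  obtain ⟨a, ha, hae⟩ := hnF
  refine ⟨a, HH lam k, (g2 a ha).1, by have := (g2 a ha).2; omega, Nat.le_ceil _, fun n hn => ?_⟩
  exact mem_Emp.1 hae n hn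

end Pool.Agent.W150.SM
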