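import Mathlib
import Pool.Agent.H318R2.Cr.Low
import Pool.Agent.H373R2.T7.Fund

/-! # The fundamental lemma for one progression and the primes in `(w, z]` (helper150) -/

set_option autoImplicit false

namespace Pool.Agent.W150.SM

open Finset Filter Topology
open Pool.Agent.H318R2.Cr
open Pool.Agent.H373R2.T7 (sys_fund pz PerB nuB mem_pz)

/-- the condition: some class modulo `p ∈ (w, z]` -/
def Qc (w z a P p n : ℕ) : Prop := (w < p ∧ p ≤ z) ∧ p ∣ a + P * n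

theorem Qc_per (w z a P p n : ℕ) : Qc w z a P p n ↔ Qc w z a P p (n % p) := by
  unfold Qc
  refine and_congr_right fun _ => ?_
  have h : a + P * n ≡ a + P * (n % p) [MOD p] :=
    Nat.ModEq.add_left a (Nat.ModEq.mul_left P (Nat.mod_modEq n p).symm)
  exact (h.dvd_iff dvd_rfl)

theorem nuB_out {w z a P p : ℕ} (h : ¬ (w < p ∧ p ≤ z)) : nuB (Qc w z a P) p = 0 := by
  classical
  unfold nuB
  rw [card_eq_zero, filter_eq_empty_iff]
  intro r _ hr
  exact h hr.1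

theorem nuB_in {w z a P p : ℕ} (hp : p.Prime) (h : w < p ∧ p ≤ z) (hP : ¬ p ∣ P) :
    nuB (Qc w z a P) p = 1 := by
  classical
  unfold nuB
  rw [card_eq_one]
  have := Fact.mk hp
  have hP' : (P : ZMod p) ≠ 0 := by rwa [Ne, ZMod.natCast_eq_zero_iff]
  set r : ZMod p := -(a : ZMod p) / P with hr
  refine ⟨r.val, ?_⟩
  have key : ∀ s : ℕ, p ∣ a + P * s ↔ (s : ZMod p) = r := by
    intro s
    rw [← ZMod.natCast_eq_zero_iff]
    push_cast
    rw [hr, eq_div_iff hP']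
    constructor
    · intro h1
      linear_combination h1
    · intro h1
      linear_combination h1
  ext s
  rw [mem_filter, mem_range, mem_singleton]
  unfold Qc
  rw [key]
  constructor
  · rintro ⟨h1, -, h2⟩
    rw [← h2, ZMod.val_natCast, Nat.mod_eq_of_lt h1]
  · intro h1
    rw [h1]
    exact ⟨ZMod.val_lt r, h, by rw [ZMod.natCast_zmod_val]⟩

theorem V_split {w z : ℕ} (h : w ≤ z) :
    V z = V w * ∏ p ∈ (Pz z).filter (fun p => w < p), (1 - 1 / (p : ℝ)) := by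
  unfold V
  have e : Pz w = (Pz z).filter (fun p => ¬ w < p) := by
    ext p
    rw [mem_filter, mem_Pz, mem_Pz]
    constructor
    · rintro ⟨h1, h2⟩
      exact ⟨⟨h1, by omega⟩, by omega⟩
    · rintro ⟨⟨h1, h2⟩, h3⟩
      exact ⟨h1, by omega⟩
  rw [e, mul_comm, prod_filter_mul_prod_filter_not]

open Classical in
/-- the fundamental lemma -/
theorem FL (ε : ℝ) (hε : 0 < ε) : ∃ K x0 : ℕ, 1 ≤ K ∧ ∀ x y : ℕ, x0 ≤ y → y ^ K ≤ x →
    ∀ w z : ℕ, w ≤ z → z ≤ y → ∀ a P : ℕ, (∀ p : ℕ, p.Prime → w < p → p ≤ z → ¬ p ∣ P) → ∀ X : ℕ,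
    |(((Icc 1 X).filter (fun n : ℕ => ∀ p : ℕ, p.Prime → w < p → p ≤ z → ¬ p ∣ a + P * n)).card : ℝ) -
      X * (V z / V w)| ≤ ε * (X * (V z / V w)) + √(x : ℝ) := by
  obtain ⟨K, x0, hK, h⟩ := sys_fund 1 le_rfl ε hε
  refine ⟨K, x0, hK, fun x y hy hyx w z hwz hzy a P hP X => ?_⟩
  have hper : PerB (Qc w z a P) 1 := by
    refine ⟨Qc_per w z a P, fun p hp => ?_⟩
    by_cases h1 : w < p ∧ p ≤ z
    · exact (nuB_in hp h1 (hP p hp h1.1 h1.2)).le
    · rw [nuB_out h1]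
      exact zero_le_one
  have h1 := h x y hy hyx (Qc w z a P) hper X
  have e1 : ∏ p ∈ pz y, (1 - (nuB (Qc w z a P) p : ℝ) / p) = V z / V w := by
    rw [V_split hwz, mul_div_cancel_left₀ _ (V_pos w).ne']
    have e2 : ∏ p ∈ (Pz z).filter (fun p => w < p), (1 - 1 / (p : ℝ)) =
        ∏ p ∈ (Pz z).filter (fun p => w < p), (1 - (nuB (Qc w z a P) p : ℝ) / p) := by
      refine prod_congr rfl fun p hp => ?_
      rw [mem_filter, mem_Pz] at hp
      rw [nuB_in hp.1.1 ⟨hp.2, hp.1.2⟩ (hP p hp.1.1 hp.2 hp.1.2)]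
      simp
    rw [e2]
    symm
    apply prod_subset
    · intro p hp
      rw [mem_filter, mem_Pz] at hp
      exact mem_pz.2 ⟨by omega, hp.1.1⟩
    · intro p hp hp'
      rw [nuB_out]
      · simp
      · rintro ⟨h2, h3⟩
        apply hp'
        rw [mem_filter, mem_Pz]
        exact ⟨⟨(mem_pz.1 hp).2, h3⟩, h2⟩
  rw [e1] at h1
  convert h1 using 6
  constructor
  · rintro h2 p hp ⟨⟨h3, h4⟩, h5⟩
    exact h2 p (mem_pz.1 hp).2 h3 h4 h5
  · intro h2 p hp h3 h4 h5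
    exact h2 p (mem_pz.2 ⟨by omega, hp⟩) ⟨⟨h3, h4⟩, h5⟩

end Pool.Agent.W150.SM
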