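import Mathlib
import Pool.Agent.W150.SM.LowEng
import Pool.Agent.W150.SM.FL

/-! # Many good intervals from one (helper150) -/

set_option autoImplicit false

namespace Pool.Agent.W150.SM

open Finset Filter Topology
open Pool.Agent.H318R2.Cr

theorem poly_exp (C b : ℝ) (hb : 0 < b) : ∀ᶠ k : ℕ in atTop, C * ((k : ℝ) + 1) ^ 2 ≤ (2 : ℝ) ^ (b * k) := by
  have hr : 1 < (2 : ℝ) ^ b := Real.one_lt_rpow (by norm_num) hb
  have h1 := tendsto_pow_const_div_const_pow_of_one_lt 2 hr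
  have h2 : ∀ᶠ k : ℕ in atTop, (k : ℝ) ^ 2 / ((2 : ℝ) ^ b) ^ k ≤ 1 / (4 * (|C| + 1)) :=
    h1.eventually (ge_mem_nhds (by positivity))
  filter_upwards [h2, eventually_ge_atTop 1] with k hk hk1
  have hk' : (1 : ℝ) ≤ k := by exact_mod_cast hk1
  have hp : 0 < ((2 : ℝ) ^ b) ^ k := by positivity
  rw [div_le_div_iff₀ hp (by positivity)] at hk
  have e : (2 : ℝ) ^ (b * k) = ((2 : ℝ) ^ b) ^ k := by
    rw [Real.rpow_mul (by norm_num), Real.rpow_natCast]
  rw [e]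
  have h3 : ((k : ℝ) + 1) ^ 2 ≤ 4 * (k : ℝ) ^ 2 := by nlinarith
  have h4 : C ≤ |C| := le_abs_self C
  have h5 : 0 ≤ |C| := abs_nonneg C
  calc C * ((k : ℝ) + 1) ^ 2 ≤ |C| * ((k : ℝ) + 1) ^ 2 := by gcongr
    _ ≤ |C| * (4 * (k : ℝ) ^ 2) := by gcongr
    _ ≤ (k : ℝ) ^ 2 * (4 * (|C| + 1)) := by nlinarith [sq_nonneg (k : ℝ)]
    _ ≤ 1 * ((2 : ℝ) ^ b) ^ k := hk
    _ = _ := one_mul _

/-- the product of the primes up to `w` -/
theorem prod_Pz_le (w : ℕ) : (∏ p ∈ Pz w, p) ≤ 4 ^ w := by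
  have h := primorial_le_four_pow w
  unfold primorial at h
  have e : Pz w = (range (w + 1)).filter Nat.Prime := by
    ext p
    rw [mem_Pz, mem_filter, mem_range]
    constructor
    · rintro ⟨h1, h2⟩
      exact ⟨by omega, h1⟩
    · rintro ⟨h1, h2⟩
      exact ⟨h2, by omega⟩
  rw [e]
  exact h

theorem Rgh_add {w a b : ℕ} (h : ∀ p : ℕ, p.Prime → p ≤ w → p ∣ b) : Rgh w (a + b) ↔ Rgh w a := by
  unfold Rgh
  refine forall_congr' fun p => forall_congr' fun hp => forall_congr' fun hpw => ?_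
  rw [Nat.dvd_add_left (h p hp hpw)]

theorem Rgh_mono {w z n : ℕ} (h : w ≤ z) (hr : Rgh z n) : Rgh w n :=
  fun p hp hpw => hr p hp (hpw.trans h)

open Classical in
theorem cnt_eq (z a h : ℕ) : cnt z a h = ((Ioc 0 h).filter (fun i => Rgh z (a + i))).card := by
  unfold cnt
  refine card_bij' (fun n _ => n - a) (fun i _ => a + i) ?_ ?_ ?_ ?_
  · intro n hn
    rw [mem_filter, mem_Ioc] at hn ⊢
    refine ⟨⟨by omega, by omega⟩, ?_⟩
    rw [Nat.add_sub_cancel' (by omega)]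
    exact hn.2
  · intro i hi
    rw [mem_filter, mem_Ioc] at hi ⊢
    exact ⟨⟨by omega, by omega⟩, hi.2⟩
  · intro n hn
    rw [mem_filter, mem_Ioc] at hn
    omega
  · intro i _
    omega

open Classical in
/-- the sum over the shifts of a progression -/
theorem sum_cnt_le {w z : ℕ} (hwz : w ≤ z) (A P N H : ℕ) (hP : ∀ p : ℕ, p.Prime → p ≤ w → p ∣ P)
    (B : ℝ) (hB : ∀ a : ℕ, (((Icc 1 N).filter (fun n : ℕ => ∀ p : ℕ, p.Prime → w < p → p ≤ z →
      ¬ p ∣ a + P * n)).card : ℝ) ≤ B) :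
    ∑ j ∈ Icc 1 N, (cnt z (A + P * j) H : ℝ) ≤ cnt w A H * B := by
  have e1 : ∀ j : ℕ, (cnt z (A + P * j) H : ℝ) =
      ∑ i ∈ Ioc 0 H, if Rgh z (A + P * j + i) then (1 : ℝ) else 0 := by
    intro j
    rw [cnt_eq, sum_boole]
  have e2 : (cnt w A H : ℝ) = ∑ i ∈ Ioc 0 H, if Rgh w (A + i) then (1 : ℝ) else 0 := by
    rw [cnt_eq, sum_boole]
  simp_rw [e1]
  rw [sum_comm, e2, sum_mul]
  refine sum_le_sum fun i _ => ?_
  by_cases hi : Rgh w (A + i)
  · rw [if_pos hi, one_mul]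
    refine le_trans ?_ (hB (A + i))
    rw [sum_boole]
    apply Nat.cast_le.2
    apply card_le_card
    intro j hj
    rw [mem_filter] at hj ⊢
    refine ⟨hj.1, fun p hp h1 h2 hd => hj.2 p hp h2 ?_⟩
    rwa [show A + P * j + i = A + i + P * j by ring]
  · rw [if_neg hi, zero_mul]
    apply le_of_eq
    apply sum_eq_zero
    intro j _
    rw [if_neg]
    intro h
    apply hi
    have h1 := Rgh_mono hwz h
    rw [show A + P * j + i = A + i + P * j by ring,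
      Rgh_add (fun p hp hpw => (hP p hp hpw).mul_right j)] at h1
    exact h1

theorem HH_le (lam : ℝ) (hlam : 0 < lam) (k : ℕ) : (HH lam k : ℝ) ≤ (lam + 1) * ((k : ℝ) + 1) ^ 2 := by
  have hl2 : Real.log 2 ≤ 1 := by
    have := Real.log_two_lt_d9
    linarith
  have hl2' : 0 < Real.log 2 := Real.log_pos (by norm_num)
  have h1 : (HH lam k : ℝ) ≤ lam * (((k : ℝ) + 1) * Real.log 2) ^ 2 + 1 :=
    (Nat.ceil_lt_add_one (by positivity)).le
  have hk : (0 : ℝ) ≤ k := Nat.cast_nonneg k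
  have h2 : (((k : ℝ) + 1) * Real.log 2) ^ 2 ≤ ((k : ℝ) + 1) ^ 2 := by
    apply pow_le_pow_left₀ (by positivity)
    nlinarith
  have h3 : 1 ≤ ((k : ℝ) + 1) ^ 2 := by nlinarith
  nlinarith

theorem HH_pos (lam : ℝ) (hlam : 0 < lam) (k : ℕ) : 0 < HH lam k := by
  have hl2' : 0 < Real.log 2 := Real.log_pos (by norm_num)
  apply Nat.ceil_pos.2
  positivity

/-- growth facts for `good_of` -/
theorem ev_good {z : ℕ → ℕ} (hz : Tendsto (fun k : ℕ => Real.log (z k) / k) atTop (𝓝 0)) (lam ε η c : ℝ)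
    (hlam : 0 < lam) (hε : 0 < ε) (hη : 0 < η) (hη1 : η ≤ 1) (hc : 0 < c) (K x0 : ℕ) : ∀ᶠ k : ℕ in atTop,
    1 ≤ k ∧ (∀ N : ℕ, (2 : ℝ) ^ ((1 : ℝ) / 4 * k) ≤ N → (max (z k) x0) ^ K ≤ N ∧
      √(N : ℝ) ≤ ε * (N * V (z k))) ∧
    2 * (2 : ℝ) ^ (η / 4 * k) + (lam + 1) * ((k : ℝ) + 1) ^ 2 < (2 : ℝ) ^ ((k : ℝ) - 1) ∧
    (2 : ℝ) ^ ((1 : ℝ) / 4 * k) ≤ (2 : ℝ) ^ ((k : ℝ) - 1 - η / 4 * k) - 1 ∧
    (2 : ℝ) ^ ((1 - η) * k) ≤ c * ((2 : ℝ) ^ ((k : ℝ) - 1 - η / 4 * k) - 1) / ((lam + 1) * ((k : ℝ) + 1) ^ 2) := by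
  have hl2 : 0 < Real.log 2 := Real.log_pos (by norm_num)
  have h1 : ∀ᶠ k : ℕ in atTop, Real.log (z k) / k ≤ Real.log 2 / (8 * (K + 1)) :=
    hz.eventually (ge_mem_nhds (by positivity))
  have h2 : ∀ᶠ k : ℕ in atTop, 1 / ε ≤ V (z k) * k := (Vk_tendsto hz).eventually_ge_atTop _
  have hx0 : ∀ᶠ k : ℕ in atTop, Real.log (x0 + 1) * (8 * (K + 1)) / Real.log 2 ≤ (k : ℝ) :=
    tendsto_natCast_atTop_atTop.eventually_ge_atTop _
  have hK : (0 : ℝ) ≤ K := Nat.cast_nonneg K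
  filter_upwards [h1, h2, hx0, eventually_ge_atTop 16, poly_exp 1 (1 / 8) (by norm_num),
    poly_exp (4 * (lam + 1)) (1 / 2) (by norm_num), poly_exp (8 * (lam + 1) / c) (η / 4) (by positivity)]
    with k a1 a2 a3 a4 a5 a6 a7
  have hk : (16 : ℝ) ≤ k := by exact_mod_cast a4
  have hk0 : (0 : ℝ) < k := by linarith
  rw [div_le_iff₀ hk0] at a1
  rw [div_le_iff₀ hl2] at a3
  have hηk : η / 4 * k ≤ k / 4 := by nlinarith
  have hηk0 : 0 ≤ η / 4 * k := by positivity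
  refine ⟨by omega, fun N hN => ⟨?_, ?_⟩, ?_, ?_, ?_⟩
  · -- y^K ≤ N
    have hN0 : (0 : ℝ) < N := lt_of_lt_of_le (by positivity) hN
    have h3 : ((max (z k) x0 : ℕ) : ℝ) ≤ Real.exp (Real.log 2 / (8 * (K + 1)) * k) := by
      rw [Nat.cast_max]
      apply max_le
      · rcases Nat.eq_zero_or_pos (z k) with h4 | h4
        · rw [h4]; push_cast; positivity
        · rw [← Real.log_le_iff_le_exp (by exact_mod_cast h4)]
          exact a1
      · have h5 : Real.log ((x0 : ℝ) + 1) ≤ Real.log 2 / (8 * (K + 1)) * k := by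
          rw [div_mul_eq_mul_div, le_div_iff₀ (by positivity)]
          linarith
        have h6 : (0 : ℝ) ≤ x0 := Nat.cast_nonneg x0
        rw [Real.log_le_iff_le_exp (by positivity)] at h5
        linarith
    have h4 : (((max (z k) x0) ^ K : ℕ) : ℝ) ≤ N := by
      push_cast
      rw [← Nat.cast_max]
      calc ((max (z k) x0 : ℕ) : ℝ) ^ K ≤ (Real.exp (Real.log 2 / (8 * (K + 1)) * k)) ^ K := by gcongr
        _ = Real.exp (K * (Real.log 2 / (8 * (K + 1)) * k)) := by rw [← Real.exp_nat_mul]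
        _ ≤ Real.exp (Real.log 2 * (1 / 4 * k)) := by
            apply Real.exp_le_exp.2
            have h5 : (K : ℝ) * (Real.log 2 / (8 * (K + 1)) * k) = (K / (K + 1)) * (Real.log 2 * k / 8) := by
              field_simp
            rw [h5]
            have h6 : (K : ℝ) / (K + 1) ≤ 1 := by
              rw [div_le_one (by positivity)]
              linarith
            have h7 : 0 ≤ Real.log 2 * k / 8 := by positivity
            nlinarith
        _ = (2 : ℝ) ^ ((1 : ℝ) / 4 * k) := by rw [Real.rpow_def_of_pos (by norm_num)]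
        _ ≤ N := hN
    exact_mod_cast h4
  · have hN0 : (0 : ℝ) < N := lt_of_lt_of_le (by positivity) hN
    have hV := V_pos (z k)
    have h3 : (k : ℝ) ^ 2 ≤ N := by
      have e : (2 : ℝ) ^ ((1 : ℝ) / 4 * k) = (2 : ℝ) ^ ((1 : ℝ) / 8 * k) * (2 : ℝ) ^ ((1 : ℝ) / 8 * k) := by
        rw [← Real.rpow_add (by norm_num)]
        congr 1
        ring
      have h4 : (k : ℝ) ^ 2 ≤ (2 : ℝ) ^ ((1 : ℝ) / 8 * k) := by nlinarith
      have h5 : 1 ≤ (2 : ℝ) ^ ((1 : ℝ) / 8 * k) := by nlinarith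
      have h6 : (2 : ℝ) ^ ((1 : ℝ) / 8 * k) ≤ (2 : ℝ) ^ ((1 : ℝ) / 8 * k) * (2 : ℝ) ^ ((1 : ℝ) / 8 * k) := by
        nlinarith
      linarith
    have h4 : (k : ℝ) ≤ √(N : ℝ) := Real.le_sqrt_of_sq_le h3
    have h5 : √(N : ℝ) * √(N : ℝ) = N := Real.mul_self_sqrt hN0.le
    have h6 : 0 < √(N : ℝ) := Real.sqrt_pos.2 hN0
    rw [div_le_iff₀ hε] at a2
    have h7 : 1 ≤ V (z k) * √(N : ℝ) * ε := by
      have h8 : V (z k) * k * ε ≤ V (z k) * √(N : ℝ) * ε := by gcongr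
      linarith
    calc √(N : ℝ) = 1 * √(N : ℝ) := (one_mul _).symm
      _ ≤ V (z k) * √(N : ℝ) * ε * √(N : ℝ) := by gcongr
      _ = ε * (√(N : ℝ) * √(N : ℝ) * V (z k)) := by ring
      _ = ε * (N * V (z k)) := by rw [h5]
  · have h3 : (2 : ℝ) ^ (η / 4 * k) ≤ (2 : ℝ) ^ ((k : ℝ) - 4) :=
      Real.rpow_le_rpow_of_exponent_le (by norm_num) (by linarith)
    have h4 : (2 : ℝ) ^ ((1 : ℝ) / 2 * k) ≤ (2 : ℝ) ^ ((k : ℝ) - 1) :=
      Real.rpow_le_rpow_of_exponent_le (by norm_num) (by linarith)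
    have h5 : (2 : ℝ) ^ ((k : ℝ) - 4) = (2 : ℝ) ^ ((k : ℝ) - 1) / 8 := by
      rw [show (k : ℝ) - 4 = (k : ℝ) - 1 - 3 by ring, Real.rpow_sub (by norm_num)]
      norm_num
    have h6 : 0 < (2 : ℝ) ^ ((k : ℝ) - 1) := by positivity
    nlinarith
  · have h3 : (2 : ℝ) ^ ((1 : ℝ) / 4 * k) * 2 ≤ (2 : ℝ) ^ ((k : ℝ) - 1 - η / 4 * k) := by
      have e : (2 : ℝ) ^ ((1 : ℝ) / 4 * k) * 2 = (2 : ℝ) ^ ((1 : ℝ) / 4 * k + 1) := by
        rw [Real.rpow_add (by norm_num), Real.rpow_one]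
      rw [e]
      exact Real.rpow_le_rpow_of_exponent_le (by norm_num) (by linarith)
    have h4 : 1 ≤ (2 : ℝ) ^ ((1 : ℝ) / 4 * k) := Real.one_le_rpow (by norm_num) (by positivity)
    linarith
  · have h3 : (2 : ℝ) ^ ((k : ℝ) - 1 - η / 4 * k) = (2 : ℝ) ^ ((1 - η) * k) * (2 : ℝ) ^ (η / 4 * k) *
        (2 : ℝ) ^ (η / 4 * k) * (2 : ℝ) ^ (η / 4 * k) / 2 := by
      rw [← Real.rpow_add (by norm_num), ← Real.rpow_add (by norm_num), ← Real.rpow_add (by norm_num),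
        show (k : ℝ) - 1 - η / 4 * k = ((1 - η) * k + η / 4 * k + η / 4 * k + η / 4 * k) - 1 by ring,
        Real.rpow_sub (by norm_num), Real.rpow_one]
    have h4 : 1 ≤ (2 : ℝ) ^ (η / 4 * k) := Real.one_le_rpow (by norm_num) hηk0
    have h5 : 2 ≤ (2 : ℝ) ^ ((k : ℝ) - 1 - η / 4 * k) := by
      calc (2 : ℝ) = (2 : ℝ) ^ (1 : ℝ) := (Real.rpow_one 2).symm
        _ ≤ _ := Real.rpow_le_rpow_of_exponent_le (by norm_num) (by linarith)
    rw [le_div_iff₀ (by positivity)]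
    set E := (2 : ℝ) ^ ((k : ℝ) - 1 - η / 4 * k) with hE
    set F := (2 : ℝ) ^ (η / 4 * k) with hF
    set G := (2 : ℝ) ^ ((1 - η) * k) with hG
    have hG0 : 0 < G := by positivity
    rw [div_mul_eq_mul_div, div_le_iff₀ hc] at a7
    -- 8 (lam+1) (k+1)^2 ≤ F * c
    have h6 : G * ((lam + 1) * ((k : ℝ) + 1) ^ 2) ≤ G * (F * c / 8) := by
      apply mul_le_mul_of_nonneg_left _ hG0.le
      linarith
    have h7 : G * F ≤ 2 * E := by
      rw [h3]
      have h8 : G * F ≤ G * F * F * F := by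
        have : 0 < G * F := by positivity
        calc G * F = G * F * 1 * 1 := by ring
          _ ≤ G * F * F * F := by gcongr
      linarith
    have h8 : G * (F * c / 8) ≤ c * (E / 4) := by
      have := mul_le_mul_of_nonneg_right h7 hc.le
      linarith
    have h9 : c * (E / 4) ≤ c * (E - 1) := by
      apply mul_le_mul_of_nonneg_left _ hc.le
      linarith
    linarith

/-- one interval with few candidates (for a lower level `w`) gives many for the level `z k` -/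
theorem good_of {z : ℕ → ℕ} (hz : Tendsto (fun k : ℕ => Real.log (z k) / k) atTop (𝓝 0)) {lam κ₀ κ : ℝ}
    (hlam : 0 < lam) (hκ₀ : 0 < κ₀) (hκ : κ₀ < κ)
    (hG : ∀ δ : ℝ, 0 < δ → ∃ᶠ k : ℕ in atTop, ∃ w a₀ : ℕ, w ≤ z k ∧ (w : ℝ) ≤ δ * k ∧
      (a₀ : ℝ) ≤ (2 : ℝ) ^ (δ * k) ∧ (cnt w a₀ (HH lam k) : ℝ) ≤ κ₀ * (HH lam k * V w)) :
    ∀ η : ℝ, 0 < η → ∃ᶠ k in atTop, Good z lam κ η k := by
  classical
  -- reduce to η ≤ 1
  suffices hs : ∀ η : ℝ, 0 < η → η ≤ 1 → ∃ᶠ k in atTop, Good z lam κ η k by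
    intro η hη
    rcases le_total η 1 with h1 | h1
    · exact hs η hη h1
    · refine (hs 1 one_pos le_rfl).mono fun k hk => ?_
      obtain ⟨T, t1, t2, t3, t4⟩ := hk
      refine ⟨T, le_trans ?_ t1, t2, t3, t4⟩
      apply Real.rpow_le_rpow_of_exponent_le (by norm_num)
      have : (0 : ℝ) ≤ k := Nat.cast_nonneg k
      nlinarith
  intro η hη hη1
  have hκ0 : 0 < κ := hκ₀.trans hκ
  obtain ⟨ε, hε0, hε⟩ : ∃ ε : ℝ, 0 < ε ∧ κ₀ * (1 + 2 * ε) < κ := by
    refine ⟨(κ - κ₀) / (4 * κ₀), by have : 0 < κ - κ₀ := by linarith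
                                    positivity, ?_⟩
    have : κ₀ * (1 + 2 * ((κ - κ₀) / (4 * κ₀))) = κ₀ + (κ - κ₀) / 2 := by
      field_simp
      ring
    rw [this]
    linarith
  obtain ⟨K, x0, hK, hFL⟩ := FL ε hε0
  set c := 1 - κ₀ * (1 + 2 * ε) / κ with hc
  have hc0 : 0 < c := by
    rw [hc, sub_pos, div_lt_one hκ0]
    exact hε
  have hev := ev_good hz lam ε η c hlam hε0 hη hη1 hc0 K x0
  refine ((hG (η / 8) (by positivity)).and_eventually hev).mono fun k hk => ?_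
  obtain ⟨⟨w, a₀, hw1, hw2, ha₀, hcnt⟩, hk1, hN1, hs1, hs2, hs3⟩ := hk
  have hk0 : (0 : ℝ) < k := by exact_mod_cast hk1
  set H := HH lam k with hH
  have hH0 : 0 < H := HH_pos lam hlam k
  have hHr : (0 : ℝ) < H := by exact_mod_cast hH0
  have hHle : (H : ℝ) ≤ (lam + 1) * ((k : ℝ) + 1) ^ 2 := HH_le lam hlam k
  set P := ∏ p ∈ Pz w, p with hP
  have hP0 : 0 < P := prod_pos fun p hp => (mem_Pz.1 hp).1.pos
  have hPr : (0 : ℝ) < P := by exact_mod_cast hP0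
  have hPle : (P : ℝ) ≤ (2 : ℝ) ^ (η / 4 * k) := by
    calc (P : ℝ) ≤ ((4 ^ w : ℕ) : ℝ) := by exact_mod_cast prod_Pz_le w
      _ = (2 : ℝ) ^ (2 * (w : ℝ)) := by
          push_cast
          rw [Real.rpow_mul (by norm_num), Real.rpow_natCast]
          norm_num
      _ ≤ _ := Real.rpow_le_rpow_of_exponent_le (by norm_num) (by linarith)
  have hPd : ∀ p : ℕ, p.Prime → p ≤ w → p ∣ P := fun p hp hpw => dvd_prod_of_mem _ (mem_Pz.2 ⟨hp, hpw⟩)
  have hPn : ∀ p : ℕ, p.Prime → w < p → p ≤ z k → ¬ p ∣ P := by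
    intro p hp h1 _ hd
    rw [hP, Prime.dvd_finsetProd_iff hp.prime] at hd
    obtain ⟨q, hq, hpq⟩ := hd
    have h2 := (Nat.prime_dvd_prime_iff_eq hp (mem_Pz.1 hq).1).1 hpq
    have := (mem_Pz.1 hq).2
    omega
  have ha₀' : (a₀ : ℝ) ≤ (2 : ℝ) ^ (η / 4 * k) :=
    ha₀.trans (Real.rpow_le_rpow_of_exponent_le (by norm_num) (by nlinarith))
  have hpow : (2 : ℝ) ^ ((k : ℝ) - 1) = ((2 ^ (k - 1) : ℕ) : ℝ) := by
    push_cast
    rw [← Real.rpow_natCast, Nat.cast_sub hk1]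
    push_cast
    rfl
  have h2k : 2 ^ k = 2 * 2 ^ (k - 1) := by
    rw [← pow_succ']
    congr 1
    omega
  have h2k1 : 2 ^ (k + 1) = 2 * 2 ^ k := by rw [pow_succ']
  have hsmall : a₀ + P + H < 2 ^ (k - 1) := by
    have : ((a₀ + P + H : ℕ) : ℝ) < ((2 ^ (k - 1) : ℕ) : ℝ) := by
      rw [← hpow]
      push_cast
      linarith
    exact_mod_cast this
  set m := 2 ^ k / P + 1 with hm
  set N := 2 ^ (k - 1) / P with hN
  have hm1 : 2 ^ k ≤ P * m := by
    rw [hm, mul_add, mul_one]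
    have := Nat.div_add_mod (2 ^ k) P
    have := Nat.mod_lt (2 ^ k) hP0
    omega
  have hm2 : P * m ≤ 2 ^ k + P := by
    rw [hm, mul_add, mul_one]
    have := Nat.mul_div_le (2 ^ k) P
    omega
  have hNP : P * N ≤ 2 ^ (k - 1) := Nat.mul_div_le _ _
  have hNlow : (2 : ℝ) ^ ((k : ℝ) - 1 - η / 4 * k) - 1 ≤ N := by
    have h1 : (2 ^ (k - 1) : ℕ) < P * (N + 1) := Nat.lt_mul_div_succ _ hP0
    have h2 : ((2 ^ (k - 1) : ℕ) : ℝ) ≤ P * (N + 1) := by exact_mod_cast h1.le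
    rw [← hpow] at h2
    have h3 : (2 : ℝ) ^ ((k : ℝ) - 1 - η / 4 * k) * (2 : ℝ) ^ (η / 4 * k) = (2 : ℝ) ^ ((k : ℝ) - 1) := by
      rw [← Real.rpow_add (by norm_num)]
      congr 1
      ring
    have h4 : (P : ℝ) * (N + 1) ≤ (2 : ℝ) ^ (η / 4 * k) * (N + 1) := by gcongr
    have h5 : (2 : ℝ) ^ ((k : ℝ) - 1 - η / 4 * k) * (2 : ℝ) ^ (η / 4 * k) ≤
        (N + 1) * (2 : ℝ) ^ (η / 4 * k) := by rw [h3]; linarith
    have h6 := le_of_mul_le_mul_right h5 (by positivity)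
    linarith
  obtain ⟨hyK, hsq⟩ := hN1 N (hs2.trans hNlow)
  have hN0 : (0 : ℝ) < N := lt_of_lt_of_le (by positivity) (hs2.trans hNlow)
  set A := a₀ + P * m with hA
  have hVz := V_pos (z k)
  have hVw := V_pos w
  have hVw1 := V_le_one w
  -- the sum
  have hsum : ∑ j ∈ Icc 1 N, (cnt (z k) (A + P * j) H : ℝ) ≤ κ₀ * (1 + 2 * ε) * (H * V (z k) * N) := by
    have h1 := sum_cnt_le hw1 A P N H hPd ((1 + 2 * ε) * (N * (V (z k) / V w))) (by
      intro a
      have h2 := hFL N (max (z k) x0) (le_max_right _ _) hyK w (z k) hw1 (le_max_left _ _) a P hPn N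
      have h3 := (abs_le.1 h2).2
      have h4 : ε * (N * V (z k)) ≤ ε * (N * (V (z k) / V w)) := by
        have h5 : V (z k) ≤ V (z k) / V w := by
          rw [le_div_iff₀ hVw]
          nlinarith
        gcongr
      linarith)
    have e : cnt w A H = cnt w a₀ H := by
      rw [cnt_eq, cnt_eq]
      congr 1
      ext i
      rw [mem_filter, mem_filter, hA, show a₀ + P * m + i = a₀ + i + P * m by ring,
        Rgh_add (fun p hp hpw => (hPd p hp hpw).mul_right m)]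
    rw [e] at h1
    refine h1.trans ?_
    calc (cnt w a₀ H : ℝ) * ((1 + 2 * ε) * (N * (V (z k) / V w)))
        ≤ κ₀ * (H * V w) * ((1 + 2 * ε) * (N * (V (z k) / V w))) := by gcongr
      _ = κ₀ * (1 + 2 * ε) * (H * V (z k) * N) := by
          field_simp
  -- Markov
  set G := (Icc 1 N).filter (fun j => (cnt (z k) (A + P * j) H : ℝ) ≤ κ * (H * V (z k))) with hGd
  have hGcard : c * N ≤ G.card := by
    have h1 : ((Icc 1 N).filter (fun j => ¬ (cnt (z k) (A + P * j) H : ℝ) ≤ κ * (H * V (z k)))).card *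
        (κ * (H * V (z k))) ≤ ∑ j ∈ Icc 1 N, (cnt (z k) (A + P * j) H : ℝ) := by
      rw [← nsmul_eq_mul, ← sum_const]
      refine (sum_le_sum fun j hj => ?_).trans (sum_le_sum_of_subset_of_nonneg (filter_subset _ _)
        fun j _ _ => Nat.cast_nonneg _)
      rw [mem_filter] at hj
      exact (not_le.1 hj.2).le
    have h2 : (G.card : ℝ) + ((Icc 1 N).filter (fun j => ¬ (cnt (z k) (A + P * j) H : ℝ) ≤
        κ * (H * V (z k)))).card = N := by
      have h3 := card_filter_add_card_filter_not (s := Icc 1 N)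
        (fun j => (cnt (z k) (A + P * j) H : ℝ) ≤ κ * (H * V (z k)))
      rw [Nat.card_Icc, Nat.add_sub_cancel] at h3
      exact_mod_cast h3
    have h3 := h1.trans hsum
    have h4 : ((((Icc 1 N).filter (fun j => ¬ (cnt (z k) (A + P * j) H : ℝ) ≤ κ * (H * V (z k)))).card : ℝ) * κ) *
        (H * V (z k)) ≤ (κ₀ * (1 + 2 * ε) * N) * (H * V (z k)) := by linarith
    have h5 := le_of_mul_le_mul_right h4 (by positivity)
    have h6 : ((((Icc 1 N).filter (fun j => ¬ (cnt (z k) (A + P * j) H : ℝ) ≤ κ * (H * V (z k)))).card : ℝ)) ≤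
        κ₀ * (1 + 2 * ε) / κ * N := by
      rw [div_mul_eq_mul_div, le_div_iff₀ hκ0]
      exact h5
    rw [hc]
    linarith
  -- pigeonhole
  obtain ⟨r, hr, hrc⟩ : ∃ r ∈ range H, G.card ≤ H * (G.filter (fun j => j % H = r)).card := by
    by_contra hcon
    push Not at hcon
    have h1 : G.card = ∑ r ∈ range H, (G.filter (fun j => j % H = r)).card :=
      card_eq_sum_card_fiberwise (fun j _ => by simpa using Nat.mod_lt j hH0)
    have h2 : ∑ r ∈ range H, H * (G.filter (fun j => j % H = r)).card < ∑ _r ∈ range H, G.card :=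
      sum_lt_sum_of_nonempty ⟨0, mem_range.2 hH0⟩ hcon
    rw [← mul_sum, ← h1, sum_const, card_range, smul_eq_mul] at h2
    exact lt_irrefl _ h2
  set T0 := G.filter (fun j => j % H = r) with hT0
  have hinj : Function.Injective (fun j : ℕ => A + P * j) := by
    intro i j hij
    have : P * i = P * j := by simpa using hij
    exact Nat.eq_of_mul_eq_mul_left hP0 this
  refine ⟨T0.image (fun j => A + P * j), ?_, ?_, ?_, ?_⟩
  · rw [card_image_of_injective _ hinj]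
    refine hs3.trans ?_
    rw [div_le_iff₀ (by positivity)]
    have h1 : (G.card : ℝ) ≤ H * T0.card := by exact_mod_cast hrc
    calc c * ((2 : ℝ) ^ ((k : ℝ) - 1 - η / 4 * k) - 1) ≤ c * N := by gcongr
      _ ≤ G.card := hGcard
      _ ≤ H * T0.card := h1
      _ ≤ ((lam + 1) * ((k : ℝ) + 1) ^ 2) * T0.card := by gcongr
      _ = T0.card * ((lam + 1) * ((k : ℝ) + 1) ^ 2) := mul_comm _ _
  · intro a ha
    rw [mem_image] at ha
    obtain ⟨j, hj, rfl⟩ := ha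
    rw [hT0, mem_filter, hGd, mem_filter, mem_Icc] at hj
    have h1 : P * j ≤ P * N := Nat.mul_le_mul_left _ hj.1.1.2
    constructor
    · rw [hA]
      omega
    · rw [hA]
      omega
  · intro a ha b hb hab
    rw [mem_image] at ha hb
    obtain ⟨i, hi, rfl⟩ := ha
    obtain ⟨j, hj, rfl⟩ := hb
    rw [hT0, mem_filter] at hi hj
    have hij : i < j := by
      by_contra hcon
      push Not at hcon
      have := Nat.mul_le_mul_left P hcon
      omega
    have h1 : i + H ≤ j := by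
      have h2 : i ≡ j [MOD H] := by
        unfold Nat.ModEq
        rw [hi.2, hj.2]
      have h3 : H ∣ j - i := (Nat.modEq_iff_dvd' hij.le).1 h2
      have h4 := Nat.le_of_dvd (by omega) h3
      omega
    have h2 : P * (i + H) ≤ P * j := Nat.mul_le_mul_left _ h1
    have h3 : H ≤ P * H := Nat.le_mul_of_pos_left H hP0
    rw [mul_add] at h2
    omega
  · intro a ha
    rw [mem_image] at ha
    obtain ⟨j, hj, rfl⟩ := ha
    rw [hT0, mem_filter, hGd, mem_filter] at hj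
    exact hj.1.2

end Pool.Agent.W150.SM
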