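import Mathlib
import Pool.Agent.W150.SM.GoodOf

/-! # Sieved random models: upper bounds for the gaps, infinitude (helper150) -/

set_option autoImplicit false

namespace Pool.Agent.W150.SM

open Finset MeasureTheory ProbabilityTheory Filter Topology
open Pool.Agent.H318R2.Cr

variable {Ω : Type*} [MeasurableSpace Ω] {μ : Measure Ω} [IsProbabilityMeasure μ]

/-- upper bound for the probability of an empty interval -/
theorem Emp_le {z : ℕ → ℕ} {A : ℕ → Set Ω} (h : IsSievedModel μ z A) {k a H : ℕ} (hk : 0 < k)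
    (h1 : 2 ^ k ≤ a) (h2 : a + H < 2 ^ (k + 1)) (hV1 : 1 ≤ V (z k) * (k * Real.log 2)) :
    μ.real (Emp A (Ioc a (a + H))) ≤
      Real.exp (-(cnt (z k) a H / (V (z k) * (((k : ℝ) + 1) * Real.log 2)))) := by
  classical
  have hl2 : 0 < Real.log 2 := Real.log_pos (by norm_num)
  have hk' : (0 : ℝ) < k := by exact_mod_cast hk
  have hV := V_pos (z k)
  rw [real_Emp h V_nonneg]
  have e : Real.exp (-(cnt (z k) a H / (V (z k) * (((k : ℝ) + 1) * Real.log 2)))) =
      ∏ n ∈ Ioc a (a + H), (if Rgh (z k) n then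
        Real.exp (-(1 / (V (z k) * (((k : ℝ) + 1) * Real.log 2)))) else 1) := by
    rw [prod_ite, prod_const_one, mul_one, prod_const, ← Real.exp_nat_mul]
    congr 1
    unfold cnt
    ring
  rw [e]
  refine prod_le_prod (fun n _ => by linarith [keepProb_le_one z n]) fun n hn => ?_
  rw [mem_Ioc] at hn
  have hlog : Nat.log 2 n = k := log2_eq (by omega) (by omega)
  have hn1 := logn_ge (k := k) (n := n) (by omega)
  have hn2 := logn_le (k := k + 1) (n := n) (by have := Nat.two_pow_pos k; omega) (by omega)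
  push_cast at hn2
  have hn0 : 0 < Real.log n := lt_of_lt_of_le (by positivity) hn1
  unfold keepProb
  rw [hlog]
  split_ifs with hr
  · have h3 : 1 / (V (z k) * Real.log n) ≤ 1 := by
      rw [div_le_one (by positivity)]
      calc (1 : ℝ) ≤ V (z k) * (k * Real.log 2) := hV1
        _ ≤ _ := by gcongr
    rw [min_eq_right h3]
    have h4 : 1 / (V (z k) * (((k : ℝ) + 1) * Real.log 2)) ≤ 1 / (V (z k) * Real.log n) := by gcongr
    have h5 := Real.add_one_le_exp (-(1 / (V (z k) * (((k : ℝ) + 1) * Real.log 2))))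
    linarith
  · simp

theorem Vlog_ev {z : ℕ → ℕ} (hz : Tendsto (fun k : ℕ => Real.log (z k) / k) atTop (𝓝 0)) :
    ∀ᶠ k : ℕ in atTop, 1 ≤ V (z k) * (k * Real.log 2) := by
  have hl2 : 0 < Real.log 2 := Real.log_pos (by norm_num)
  filter_upwards [(Vk_tendsto hz).eventually_ge_atTop (1 / Real.log 2)] with k hk
  rw [div_le_iff₀ hl2] at hk
  linarith

/-- the count as in the fundamental lemma -/
theorem cnt_eq_FL (z a H : ℕ) [DecidablePred fun n : ℕ => ∀ p : ℕ, p.Prime → 0 < p → p ≤ z → ¬ p ∣ a + 1 * n] :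
    cnt z a H = ((Icc 1 H).filter (fun n : ℕ => ∀ p : ℕ, p.Prime → 0 < p → p ≤ z → ¬ p ∣ a + 1 * n)).card := by
  classical
  rw [cnt_eq]
  congr 1
  ext n
  rw [mem_filter, mem_filter, mem_Ioc, mem_Icc]
  refine and_congr ⟨fun h => ⟨h.1, h.2⟩, fun h => ⟨h.1, h.2⟩⟩ ?_
  unfold Rgh
  rw [one_mul]
  exact ⟨fun h p hp _ hpz => h p hp hpz, fun h p hp hpz => h p hp hp.pos hpz⟩

theorem V_zero : V 0 = 1 := V_small (by norm_num)

/-- lower bound for the count in every interval -/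
theorem cnt_low (ε : ℝ) (hε : 0 < ε) : ∃ K x0 : ℕ, 1 ≤ K ∧ ∀ z a H : ℕ, (max z x0) ^ K ≤ H →
    √(H : ℝ) ≤ ε * (H * V z) → (1 - 2 * ε) * (H * V z) ≤ cnt z a H := by
  classical
  obtain ⟨K, x0, hK, hFL⟩ := FL ε hε
  refine ⟨K, x0, hK, fun z a H h1 h2 => ?_⟩
  have h3 := hFL H (max z x0) (le_max_right _ _) h1 0 z (Nat.zero_le _) (le_max_left _ _) a 1
    (fun p hp _ _ hd => hp.one_lt.ne' (Nat.dvd_one.1 hd)) H
  have h4 := (abs_le.1 h3).1
  rw [V_zero, div_one] at h4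
  rw [cnt_eq_FL]
  linarith

/-- the random set is infinite -/
theorem infinite_ae {z : ℕ → ℕ} (hz : Tendsto (fun k : ℕ => Real.log (z k) / k) atTop (𝓝 0))
    {A : ℕ → Set Ω} (h : IsSievedModel μ z A) : ∀ᵐ ω ∂μ, {n | ω ∈ A n}.Infinite := by
  have hl2 : 0 < Real.log 2 := Real.log_pos (by norm_num)
  obtain ⟨K, x0, hK, hcl⟩ := cnt_low (1 / 4) (by norm_num)
  have hsum : Summable (fun k : ℕ => Real.exp (-((1 : ℝ) * k))) := by
    have h1 : (fun k : ℕ => Real.exp (-((1 : ℝ) * k))) = fun k : ℕ => (Real.exp (-1)) ^ k := by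
      ext k
      rw [← Real.exp_nat_mul]
      congr 1
      ring
    rw [h1]
    exact summable_geometric_of_lt_one (Real.exp_pos _).le (by rw [Real.exp_lt_one_iff]; norm_num)
  have hb : ∀ᶠ k : ℕ in atTop, μ.real (Emp A (Ioc (2 ^ k) (2 ^ k + (2 ^ k - 1)))) ≤
      Real.exp (-((1 : ℝ) * k)) := by
    filter_upwards [ev_good hz 1 (1 / 4) 1 1 one_pos (by norm_num) one_pos le_rfl one_pos K x0,
      Vlog_ev hz, poly_exp 8 1 one_pos, eventually_ge_atTop 2] with k hk hk2 hk3 hk4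
    obtain ⟨k1, k2, -⟩ := hk
    have hk0 : (2 : ℝ) ≤ k := by exact_mod_cast hk4
    rw [one_mul] at hk3
    have h2k : (2 : ℝ) ^ (k : ℝ) = ((2 ^ k : ℕ) : ℝ) := by
      push_cast
      rw [Real.rpow_natCast]
    have hcast : (((2 ^ k - 1 : ℕ)) : ℝ) = (2 : ℝ) ^ (k : ℝ) - 1 := by
      rw [h2k, Nat.cast_sub Nat.one_le_two_pow]
      push_cast
      rfl
    obtain ⟨m1, m2⟩ := k2 (2 ^ k - 1) (by
      rw [hcast]
      have e : (2 : ℝ) ^ (k : ℝ) = (2 : ℝ) ^ ((1 : ℝ) / 4 * k) * (2 : ℝ) ^ ((3 : ℝ) / 4 * k) := by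
        rw [← Real.rpow_add (by norm_num)]
        congr 1
        ring
      have h1 : 1 ≤ (2 : ℝ) ^ ((1 : ℝ) / 4 * k) := Real.one_le_rpow (by norm_num) (by positivity)
      have h2 : 2 ≤ (2 : ℝ) ^ ((3 : ℝ) / 4 * k) := by
        calc (2 : ℝ) = (2 : ℝ) ^ (1 : ℝ) := (Real.rpow_one 2).symm
          _ ≤ _ := Real.rpow_le_rpow_of_exponent_le (by norm_num) (by linarith)
      rw [e]
      nlinarith)
    have hc := hcl (z k) (2 ^ k) (2 ^ k - 1) m1 m2
    have hpow := Nat.two_pow_pos k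
    refine (Emp_le h (by omega) le_rfl (by rw [pow_succ']; omega) hk2).trans ?_
    apply Real.exp_le_exp.2
    rw [neg_le_neg_iff]
    have hV := V_pos (z k)
    rw [le_div_iff₀ (by positivity)]
    refine le_trans ?_ hc
    rw [hcast]
    have hlog2 : Real.log 2 ≤ 1 := by
      have := Real.log_two_lt_d9
      linarith
    have h3 : 1 * (k : ℝ) * (((k : ℝ) + 1) * Real.log 2) ≤ ((k : ℝ) + 1) ^ 2 := by
      have h4 : (k : ℝ) * (((k : ℝ) + 1) * Real.log 2) ≤ k * (((k : ℝ) + 1) * 1) := by gcongr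
      nlinarith
    have h5 : ((k : ℝ) + 1) ^ 2 ≤ (1 - 2 * (1 / 4)) * ((2 : ℝ) ^ (k : ℝ) - 1) := by nlinarith
    calc 1 * (k : ℝ) * (V (z k) * (((k : ℝ) + 1) * Real.log 2))
        = (1 * (k : ℝ) * (((k : ℝ) + 1) * Real.log 2)) * V (z k) := by ring
      _ ≤ ((1 - 2 * (1 / 4)) * ((2 : ℝ) ^ (k : ℝ) - 1)) * V (z k) := by
          apply mul_le_mul_of_nonneg_right (h3.trans h5) hV.le
      _ = _ := by ring
  filter_upwards [bc hsum hb] with ω hω
  rw [Set.infinite_iff_exists_gt]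
  intro N
  obtain ⟨k, hk, hkN⟩ := (hω.and (eventually_ge_atTop N)).exists
  rw [mem_Emp] at hk
  push Not at hk
  obtain ⟨n, hn, hnA⟩ := hk
  rw [mem_Ioc] at hn
  refine ⟨n, hnA, ?_⟩
  have : k < 2 ^ k := Nat.lt_two_pow_self
  omega

end Pool.Agent.W150.SM
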