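import Mathlib
import Pool.Agent.W150.SM.Up

/-! # Sieved random models: lower bounds for the Cramer constant (helper150) -/

set_option autoImplicit false

namespace Pool.Agent.W150.SM

open Finset MeasureTheory ProbabilityTheory Filter Topology
open Pool.Agent.H318R2.Cr

universe u

variable {Ω : Type*} [MeasurableSpace Ω] {μ : Measure Ω} [IsProbabilityMeasure μ]

omit [IsProbabilityMeasure μ] in
/-- passing to the supremum -/
theorem ae_ge {C : Ω → EReal} {L : ℝ} (hL : 0 < L)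
    (h : ∀ lam : ℝ, 0 < lam → lam < L → ∀ᵐ ω ∂μ, (lam : EReal) ≤ C ω) : ∀ᵐ ω ∂μ, (L : EReal) ≤ C ω := by
  set s : ℕ → ℝ := fun n => L * (1 - 1 / ((n : ℝ) + 2)) with hs
  have h1 : ∀ n, 0 < s n ∧ s n < L := by
    intro n
    have h2 : (0 : ℝ) < (n : ℝ) + 2 := by positivity
    have h3 : 1 / ((n : ℝ) + 2) < 1 := by
      rw [div_lt_one h2]
      have : (0 : ℝ) ≤ n := Nat.cast_nonneg n
      linarith
    have h4 : 0 < 1 / ((n : ℝ) + 2) := by positivity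
    constructor
    · exact mul_pos hL (by linarith)
    · rw [hs]
      dsimp only
      nlinarith
  have h2 : ∀ᵐ ω ∂μ, ∀ n, ((s n : ℝ) : EReal) ≤ C ω := ae_all_iff.2 fun n => h _ (h1 n).1 (h1 n).2
  have h3 : Tendsto s atTop (𝓝 L) := by
    have h4 : Tendsto (fun n : ℕ => 1 / ((n : ℝ) + 2)) atTop (𝓝 0) := by
      have h5 := tendsto_one_div_atTop_nhds_zero_nat (𝕜 := ℝ)
      have h6 := h5.comp (tendsto_add_atTop_nat 2)
      refine h6.congr fun n => ?_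
      simp
    have h7 : Tendsto (fun n : ℕ => L * (1 - 1 / ((n : ℝ) + 2))) atTop (𝓝 (L * (1 - 0))) :=
      (tendsto_const_nhds.sub h4).const_mul L
    rw [sub_zero, mul_one] at h7
    exact h7
  filter_upwards [h2] with ω hω
  exact le_of_tendsto' ((continuous_coe_real_ereal.tendsto L).comp h3) hω

/-- summary of the lower bound machine -/
theorem ge_of {z : ℕ → ℕ} (hz : Tendsto (fun k : ℕ => Real.log (z k) / k) atTop (𝓝 0)) {A : ℕ → Set Ω}
    (h : IsSievedModel μ z A) {lam κ₀ : ℝ} (hlam : 0 < lam) (hκ₀ : 0 < κ₀) (hκl : κ₀ * lam < 1)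
    (hG : ∀ δ : ℝ, 0 < δ → ∃ᶠ k : ℕ in atTop, ∃ w a₀ : ℕ, w ≤ z k ∧ (w : ℝ) ≤ δ * k ∧
      (a₀ : ℝ) ≤ (2 : ℝ) ^ (δ * k) ∧ (cnt w a₀ (HH lam k) : ℝ) ≤ κ₀ * (HH lam k * V w)) :
    ∀ᵐ ω ∂μ, (lam : EReal) ≤ cramerLimsup {n | ω ∈ A n} := by
  obtain ⟨κ, h1, h2⟩ : ∃ κ : ℝ, κ₀ < κ ∧ κ * lam < 1 := by
    have h3 : κ₀ < 1 / lam := by rwa [lt_div_iff₀ hlam]
    obtain ⟨κ, h4, h5⟩ := exists_between h3
    exact ⟨κ, h4, by rwa [lt_div_iff₀ hlam] at h5⟩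
  exact lower_engine hz h (infinite_ae hz h) hlam (hκ₀.trans h1) h2 (good_of hz hlam hκ₀ h1 hG)

/-- the Cramer constant is at least one -/
theorem ge_one {z : ℕ → ℕ} (hz : Tendsto (fun k : ℕ => Real.log (z k) / k) atTop (𝓝 0)) {A : ℕ → Set Ω}
    (h : IsSievedModel μ z A) : ∀ᵐ ω ∂μ, ((1 : ℝ) : EReal) ≤ cramerLimsup {n | ω ∈ A n} := by
  classical
  apply ae_ge one_pos
  intro lam h0 h1
  apply ge_of hz h h0 one_pos (by linarith)
  intro δ hδ
  apply Eventually.frequently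
  filter_upwards with k
  refine ⟨0, 0, Nat.zero_le _, by push_cast; positivity, by push_cast; positivity, ?_⟩
  rw [V_zero, one_mul, mul_one]
  unfold cnt
  have : ((Ioc 0 (0 + HH lam k)).filter (Rgh 0)).card ≤ HH lam k := by
    refine (card_filter_le _ _).trans ?_
    rw [Nat.card_Ioc]
    omega
  exact_mod_cast this

theorem log_div_k : Tendsto (fun k : ℕ => Real.log (k : ℝ) / k) atTop (𝓝 0) := by
  have h3 := Real.isLittleO_log_id_atTop.tendsto_div_nhds_zero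
  exact h3.comp tendsto_natCast_atTop_atTop

theorem pow_ev (K δ : ℝ) (hδ : 0 < δ) : ∀ᶠ k : ℕ in atTop, (k : ℝ) ^ K ≤ (2 : ℝ) ^ (δ * k) := by
  have hl2 : 0 < Real.log 2 := Real.log_pos (by norm_num)
  have h1 : ∀ᶠ k : ℕ in atTop, Real.log (k : ℝ) / k ≤ δ * Real.log 2 / (|K| + 1) :=
    log_div_k.eventually (ge_mem_nhds (by positivity))
  filter_upwards [h1, eventually_ge_atTop 1] with k hk hk1
  have hk0 : (0 : ℝ) < k := by exact_mod_cast hk1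
  have hl : 0 ≤ Real.log k := Real.log_natCast_nonneg k
  rw [Real.rpow_def_of_pos hk0, Real.rpow_def_of_pos (by norm_num)]
  apply Real.exp_le_exp.2
  rw [div_le_div_iff₀ hk0 (by positivity)] at hk
  have h2 : K ≤ |K| := le_abs_self K
  have h3 : Real.log k * K ≤ Real.log k * (|K| + 1) := by
    apply mul_le_mul_of_nonneg_left _ hl
    linarith
  linarith

/-- at levels `≥ (log n)^ε` the Cramer constant is bounded away from one -/
theorem ge_delta (ε : ℝ) (hε : 0 < ε) : ∃ δ : ℝ, 0 < δ ∧ ∀ z : ℕ → ℕ,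
    Tendsto (fun k : ℕ => Real.log (z k) / k) atTop (𝓝 0) → (∃ᶠ k : ℕ in atTop, (k : ℝ) ^ ε ≤ z k) →
    ∀ (Ω : Type u) [MeasurableSpace Ω] (μ : Measure Ω) [IsProbabilityMeasure μ] (A : ℕ → Set Ω),
    IsSievedModel μ z A →
      ∀ᵐ ω ∂μ, ((1 + δ : ℝ) : EReal) ≤ cramerLimsup {n | ω ∈ A n} := by
  classical
  set ε' := min ε (1 / 2) with hε'
  have hε'0 : 0 < ε' := lt_min hε (by norm_num)
  have hε'1 : ε' ≤ ε := min_le_left _ _
  have hε'2 : ε' ≤ 1 / 2 := min_le_right _ _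
  obtain ⟨δ₀, hδ₀, hδ₀1, K, z₀, hK, hlow⟩ := lowInt (4 / ε')
  refine ⟨1 / (1 - δ₀) - 1, ?_, fun z hz hfr Ω _ μ _ A hA => ?_⟩
  · rw [sub_pos, one_lt_div (by linarith)]
    linarith
  rw [add_sub_cancel]
  have hpos : 0 < 1 - δ₀ := by linarith
  apply ae_ge (by positivity)
  intro lam hlam hlam1
  have hlam2 : (1 - δ₀) * lam < 1 := by
    rw [lt_div_iff₀ hpos] at hlam1
    linarith
  apply ge_of hz hA hlam hpos hlam2
  intro δ hδ
  -- eventual facts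
  have e1 : ∀ᶠ k : ℕ in atTop, (z₀ : ℝ) + 2 ≤ (k : ℝ) ^ ε' := by
    have h1 : Tendsto (fun k : ℕ => (k : ℝ) ^ ε') atTop atTop :=
      (tendsto_rpow_atTop hε'0).comp tendsto_natCast_atTop_atTop
    exact h1.eventually_ge_atTop _
  have hkk : ∀ M : ℝ, ∀ᶠ k : ℕ in atTop, M ≤ (k : ℝ) := fun M =>
    tendsto_natCast_atTop_atTop.eventually_ge_atTop M
  refine (hfr.and_eventually ((((e1.and (hkk (1 / δ ^ 2))).and (hkk 1)).and (pow_ev K δ hδ)).and
    ((hkk ((lam + 1) * 4 * (2 : ℝ) ^ (4 / ε')))))).mono ?_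
  rintro k ⟨hkz, ⟨⟨⟨k1, k2⟩, k3⟩, k4⟩, k5⟩
  have hk0 : (0 : ℝ) < k := by linarith
  set X : ℝ := (k : ℝ) ^ ε' with hX
  set w : ℕ := ⌊X⌋₊ with hw
  have hX0 : 0 ≤ X := by positivity
  have hwX : (w : ℝ) ≤ X := Nat.floor_le hX0
  have hwX2 : X / 2 ≤ w := by
    have h1 : X < w + 1 := Nat.lt_floor_add_one X
    have h2 : (0 : ℝ) ≤ z₀ := Nat.cast_nonneg z₀
    linarith
  have hXz : X ≤ z k := (Real.rpow_le_rpow_of_exponent_le k3 hε'1).trans hkz
  have hwz : w ≤ z k := by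
    have : (w : ℝ) ≤ z k := hwX.trans hXz
    exact_mod_cast this
  have hz₀w : z₀ ≤ w := by
    apply Nat.le_floor
    linarith
  have hXsq : X ≤ √(k : ℝ) := by
    rw [Real.sqrt_eq_rpow]
    exact Real.rpow_le_rpow_of_exponent_le k3 hε'2
  have hsqk : √(k : ℝ) ≤ δ * k := by
    have h1 : √(k : ℝ) * √(k : ℝ) = k := Real.mul_self_sqrt hk0.le
    have h2 : 1 / δ ≤ √(k : ℝ) := by
      apply Real.le_sqrt_of_sq_le
      rw [one_div_pow]
      exact k2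
    have h3 : 1 ≤ δ * √(k : ℝ) := by
      rw [div_le_iff₀ hδ] at h2
      linarith
    have h4 : 0 ≤ √(k : ℝ) := Real.sqrt_nonneg _
    calc √(k : ℝ) = 1 * √(k : ℝ) := (one_mul _).symm
      _ ≤ δ * √(k : ℝ) * √(k : ℝ) := by gcongr
      _ = δ * k := by rw [mul_assoc, h1]
  have hXk : X ≤ k := by
    calc X ≤ (k : ℝ) ^ (1 : ℝ) := Real.rpow_le_rpow_of_exponent_le k3 (by linarith)
      _ = k := Real.rpow_one _
  have hHw : (HH lam k : ℝ) ≤ (w : ℝ) ^ (4 / ε') := by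
    refine (HH_le lam hlam k).trans ?_
    have h1 : (X / 2) ^ (4 / ε') ≤ (w : ℝ) ^ (4 / ε') :=
      Real.rpow_le_rpow (by positivity) hwX2 (by positivity)
    refine le_trans ?_ h1
    rw [Real.div_rpow hX0 (by norm_num), hX, ← Real.rpow_mul hk0.le,
      show ε' * (4 / ε') = (4 : ℕ) by push_cast; field_simp, Real.rpow_natCast, le_div_iff₀ (by positivity)]
    have h2 : ((k : ℝ) + 1) ^ 2 ≤ 4 * (k : ℝ) ^ 2 := by nlinarith
    calc (lam + 1) * ((k : ℝ) + 1) ^ 2 * (2 : ℝ) ^ (4 / ε')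
        ≤ (lam + 1) * (4 * (k : ℝ) ^ 2) * (2 : ℝ) ^ (4 / ε') := by gcongr
      _ = (k : ℝ) ^ 2 * ((lam + 1) * 4 * (2 : ℝ) ^ (4 / ε')) := by ring
      _ ≤ (k : ℝ) ^ 2 * k := by gcongr
      _ ≤ (k : ℝ) ^ 2 * (k : ℝ) ^ 2 := by
          apply mul_le_mul_of_nonneg_left _ (by positivity)
          nlinarith
      _ = (k : ℝ) ^ 4 := by ring
  obtain ⟨a₀, ha₀, hc⟩ := hlow w hz₀w (HH lam k) (HH_pos lam hlam k) hHw
  refine ⟨w, a₀, hwz, hwX.trans (hXsq.trans hsqk), ?_, hc⟩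
  refine ha₀.trans (le_trans ?_ k4)
  apply Real.rpow_le_rpow (Nat.cast_nonneg _) (hwX.trans hXk) hK

end Pool.Agent.W150.SM
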