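import Mathlib
import Pool.Agent.W150.SM.Low3
import Pool.Agent.H510R2.Maier.MA6

/-! # Rough numbers in `[1, c k^2]`, and the constant `2 exp (-γ)` (helper150) -/

set_option autoImplicit false

namespace Pool.Agent.W150.SM

open Finset MeasureTheory ProbabilityTheory Filter Topology
open Pool.Agent.H318R2.Cr
open Pool.Agent.H510R2.Maier (R1 QQ QQ_real R1_cell PI mem_PI sum_PI_inv R1_mono GG GG_le card_PI_le pi_ev)

theorem V_eq_QQ (z : ℕ) : V z = QQ z := by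
  unfold V QQ Pz
  congr 1

open Classical in
theorem cnt_zero_le (z T : ℕ) (hT : T < (z + 1) ^ 3) :
    cnt z 0 T ≤ 1 + (PI z T).card + ∑ p ∈ PI z (T / (z + 1)), (PI z (T / p)).card := by
  have h1 := GG_le z ∅ T hT
  rw [sum_empty, add_zero] at h1
  refine le_trans (card_le_card ?_) h1
  intro m hm
  rw [mem_filter, mem_Ioc] at hm
  unfold GG
  rw [mem_filter, mem_Icc]
  refine ⟨⟨by omega, by omega⟩, fun p hp hd => Or.inl ?_⟩
  by_contra hcon
  exact hm.2 p hp (by omega) hd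

/-- few rough numbers -/
theorem rough_few (θ : ℝ) (hθ : 0 < θ) (hθ1 : θ ≤ 1) (lam : ℝ) (hlam : 0 < lam) :
    ∃ ε : ℝ, 0 < ε ∧ ε ≤ 1 / 4 ∧ ∀ᶠ k : ℕ in atTop,
      (cnt ⌊(k : ℝ) ^ (1 - ε)⌋₊ 0 (HH lam k) : ℝ) ≤
        Real.exp Real.eulerMascheroniConstant / 2 * (1 + θ) * (HH lam k * V ⌊(k : ℝ) ^ (1 - ε)⌋₊) := by
  set δ := θ / 100 with hδ
  have hδ0 : 0 < δ := by positivity
  have hδ1 : δ ≤ 1 / 100 := by rw [hδ]; linarith
  refine ⟨δ, hδ0, by linarith, ?_⟩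
  set γ' := Real.exp Real.eulerMascheroniConstant with hγ'
  have hγ0 : 0 < γ' := Real.exp_pos _
  have hl2 : 0 < Real.log 2 := Real.log_pos (by norm_num)
  have hkk : ∀ M : ℝ, ∀ᶠ k : ℕ in atTop, M ≤ (k : ℝ) := fun M =>
    tendsto_natCast_atTop_atTop.eventually_ge_atTop M
  -- V lower bound
  have hz_top : Tendsto (fun k : ℕ => (k : ℝ) ^ (1 - δ)) atTop atTop :=
    (tendsto_rpow_atTop (by linarith)).comp tendsto_natCast_atTop_atTop
  have eV : ∀ᶠ k : ℕ in atTop, (QQ ⌊(k : ℝ) ^ (1 - δ)⌋₊)⁻¹ / Real.log ((k : ℝ) ^ (1 - δ)) ≤ γ' * (1 + δ) := by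
    have h1 := QQ_real.comp hz_top
    exact h1.eventually (ge_mem_nhds (by nlinarith))
  -- R1 difference
  have eR : ∀ᶠ k : ℕ in atTop, R1 ⌊4 * (lam + 1) * (k : ℝ) ^ (1 + δ)⌋₊ - R1 ⌊1 * (k : ℝ) ^ (1 - δ)⌋₊ ≤
      4 * δ + δ := by
    have h1 := (R1_cell (4 * (lam + 1)) 1 (1 + δ) (1 - δ) (by positivity) one_pos (by linarith)
      (by linarith)).comp (tendsto_natCast_atTop_atTop (R := ℝ))
    have h2 : Real.log ((1 + δ) / (1 - δ)) < 4 * δ + δ := by
      have h3 : 0 < (1 + δ) / (1 - δ) := div_pos (by linarith) (by linarith)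
      have h4 := Real.log_le_sub_one_of_pos h3
      have h5 : (1 + δ) / (1 - δ) - 1 ≤ 4 * δ := by
        rw [sub_le_iff_le_add, div_le_iff₀ (by linarith)]
        nlinarith
      linarith
    exact h1.eventually (ge_mem_nhds h2)
  -- primes
  obtain ⟨N₀, hN₀⟩ := eventually_atTop.1 (pi_ev δ hδ0)
  -- logs
  have hlog : ∀ᶠ k : ℕ in atTop, (100 / δ + 100) ≤ Real.log (k : ℝ) :=
    (Real.tendsto_log_atTop.comp tendsto_natCast_atTop_atTop).eventually_ge_atTop _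
  have hlog2 : ∀ᶠ k : ℕ in atTop, |Real.log (lam * (Real.log 2) ^ 2)| / δ ≤ Real.log (k : ℝ) :=
    (Real.tendsto_log_atTop.comp tendsto_natCast_atTop_atTop).eventually_ge_atTop _
  have hlogk : ∀ᶠ k : ℕ in atTop, Real.log (k : ℝ) / k ≤ δ * (lam * (Real.log 2) ^ 2) :=
    log_div_k.eventually (ge_mem_nhds (by positivity))
  have hz_big : ∀ᶠ k : ℕ in atTop, (N₀ : ℝ) + 10 ≤ (k : ℝ) ^ (1 - δ) := hz_top.eventually_ge_atTop _
  have hcube : ∀ᶠ k : ℕ in atTop, 4 * (lam + 1) ≤ (k : ℝ) ^ (1 - 3 * δ) := by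
    have h1 : Tendsto (fun k : ℕ => (k : ℝ) ^ (1 - 3 * δ)) atTop atTop :=
      (tendsto_rpow_atTop (by linarith)).comp tendsto_natCast_atTop_atTop
    exact h1.eventually_ge_atTop _
  filter_upwards [eV, eR, hlog, hlog2, hlogk, hz_big, hcube, hkk 16] with k hV hR hl hl' hlk hzb hcb hk
  have hk0 : (0 : ℝ) < k := by linarith
  set Z : ℝ := (k : ℝ) ^ (1 - δ) with hZ
  set z : ℕ := ⌊Z⌋₊ with hz
  set T : ℕ := HH lam k with hT
  set l := Real.log (k : ℝ) with hl_def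
  have hl0 : 0 < l := by
    have : 0 < 100 / δ := by positivity
    linarith
  have hN0' : (0 : ℝ) ≤ N₀ := Nat.cast_nonneg _
  have hZ0 : 0 < Z := by linarith
  have hzZ : (z : ℝ) ≤ Z := Nat.floor_le hZ0.le
  have hZz : Z < z + 1 := Nat.lt_floor_add_one Z
  have hz9 : (9 : ℝ) ≤ z := by linarith
  have hz0 : (0 : ℝ) < z := by linarith
  have hzN₀ : N₀ ≤ z := by
    have : (N₀ : ℝ) ≤ z := by linarith
    exact_mod_cast this
  have hT1 : lam * (((k : ℝ) + 1) * Real.log 2) ^ 2 ≤ T := Nat.le_ceil _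
  have hT2 : (T : ℝ) ≤ 4 * (lam + 1) * (k : ℝ) ^ 2 := by
    refine (HH_le lam hlam k).trans ?_
    have : ((k : ℝ) + 1) ^ 2 ≤ 4 * (k : ℝ) ^ 2 := by nlinarith
    calc (lam + 1) * ((k : ℝ) + 1) ^ 2 ≤ (lam + 1) * (4 * (k : ℝ) ^ 2) := by gcongr
      _ = _ := by ring
  have hT3 : lam * (Real.log 2) ^ 2 * (k : ℝ) ^ 2 ≤ T := by
    refine le_trans ?_ hT1
    have : ((k : ℝ) * Real.log 2) ^ 2 ≤ (((k : ℝ) + 1) * Real.log 2) ^ 2 := by gcongr; linarith
    calc lam * (Real.log 2) ^ 2 * (k : ℝ) ^ 2 = lam * ((k : ℝ) * Real.log 2) ^ 2 := by ring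
      _ ≤ _ := by gcongr
  have hT0 : (0 : ℝ) < T := lt_of_lt_of_le (by positivity) hT3
  -- powers of k
  have hZsplit : ∀ a b : ℝ, (k : ℝ) ^ a * (k : ℝ) ^ b = (k : ℝ) ^ (a + b) := fun a b =>
    (Real.rpow_add hk0 a b).symm
  -- T < (z+1)^3
  have hcub : T < (z + 1) ^ 3 := by
    have h1 : (T : ℝ) < ((z : ℝ) + 1) ^ 3 := by
      have h2 : Z ^ 3 < ((z : ℝ) + 1) ^ 3 := by gcongr
      refine lt_of_le_of_lt (hT2.trans ?_) h2
      have h3 : Z ^ 3 = (k : ℝ) ^ (1 - 3 * δ) * (k : ℝ) ^ 2 := by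
        rw [← Real.rpow_natCast (k : ℝ) 2, hZsplit, hZ, ← Real.rpow_natCast, ← Real.rpow_mul hk0.le]
        congr 1
        push_cast
        ring
      rw [h3]
      gcongr
    exact_mod_cast h1
  -- the three terms
  have hc := cnt_zero_le z T hcub
  have hzT : z ≤ T := by
    have h1 : Z ≤ k := by
      calc Z ≤ (k : ℝ) ^ (1 : ℝ) := Real.rpow_le_rpow_of_exponent_le (by linarith) (by linarith)
        _ = k := Real.rpow_one _
    have h2 : (k : ℝ) ≤ T := by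
      refine le_trans ?_ hT3
      -- from `log k / k ≤ δ lam log² 2` and `log k ≥ 100/δ`
      rw [div_le_iff₀ hk0] at hlk
      have h3 : 1 ≤ lam * (Real.log 2) ^ 2 * k := by
        by_contra hcon
        push Not at hcon
        have h4 : δ * (lam * (Real.log 2) ^ 2) * k < δ := by nlinarith
        have h5 : 0 < 100 / δ := by positivity
        linarith
      nlinarith
    have h3 : (z : ℝ) ≤ T := by linarith
    exact_mod_cast h3
  have hlogT : (2 - δ) * l ≤ Real.log T := by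
    have h1 : Real.log (lam * (Real.log 2) ^ 2 * (k : ℝ) ^ 2) ≤ Real.log T := Real.log_le_log (by positivity) hT3
    rw [Real.log_mul (by positivity) (by positivity), Real.log_pow] at h1
    rw [div_le_iff₀ hδ0] at hl'
    have h2 := neg_abs_le (Real.log (lam * (Real.log 2) ^ 2))
    push_cast at h1
    linarith
  have hlogT0 : 0 < Real.log T := lt_of_lt_of_le (mul_pos (by linarith) hl0) hlogT
  have hlogz : l / 2 ≤ Real.log z := by
    have h1 : Real.log (Z / 2) ≤ Real.log z := Real.log_le_log (by positivity) (by linarith)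
    rw [Real.log_div hZ0.ne' (by norm_num), hZ, Real.log_rpow hk0] at h1
    have h3 : Real.log 2 ≤ 1 := by
      have := Real.log_two_lt_d9
      linarith
    have h4 : 100 ≤ l := by
      have : 0 < 100 / δ := by positivity
      linarith
    nlinarith
  have hlogz0 : 0 < Real.log z := lt_of_lt_of_le (by positivity) hlogz
  -- term 1
  have t1 : (1 : ℝ) ≤ δ * T / l := by
    rw [le_div_iff₀ hl0]
    rw [div_le_iff₀ hk0] at hlk
    have h1 : (k : ℝ) ≤ (k : ℝ) ^ 2 := by nlinarith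
    calc 1 * l ≤ δ * (lam * (Real.log 2) ^ 2) * k := by linarith
      _ ≤ δ * (lam * (Real.log 2) ^ 2) * (k : ℝ) ^ 2 := by gcongr
      _ = δ * (lam * (Real.log 2) ^ 2 * (k : ℝ) ^ 2) := by ring
      _ ≤ δ * T := by gcongr
  -- term 2
  have t2 : ((PI z T).card : ℝ) ≤ (1 + δ) / (2 - δ) * T / l := by
    have h1 : ((PI z T).card : ℝ) ≤ (1 + δ) * (T / Real.log T) :=
      (Nat.cast_le.2 (card_PI_le z T)).trans (hN₀ T (hzN₀.trans hzT))
    refine h1.trans ?_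
    have h2 : (T : ℝ) / Real.log T ≤ T / ((2 - δ) * l) := by
      apply div_le_div_of_nonneg_left hT0.le (mul_pos (by linarith) hl0) hlogT
    calc (1 + δ) * (T / Real.log T) ≤ (1 + δ) * (T / ((2 - δ) * l)) := by gcongr
      _ = (1 + δ) / (2 - δ) * T / l := by
          have : (2 - δ) ≠ 0 := by linarith
          field_simp
  -- term 3
  have t3 : ∑ p ∈ PI z (T / (z + 1)), ((PI z (T / p)).card : ℝ) ≤ 4 * (5 * δ) * T / l := by
    have h1 : ∀ p ∈ PI z (T / (z + 1)), ((PI z (T / p)).card : ℝ) ≤ 4 * T / l * (1 / p) := by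
      intro p hp
      rw [mem_PI] at hp
      obtain ⟨⟨hp1, hp2⟩, hp3⟩ := hp
      have hp0 : (0 : ℝ) < p := by exact_mod_cast hp3.pos
      have h2 : z + 1 ≤ T / p := by
        rw [Nat.le_div_iff_mul_le hp3.pos, mul_comm]
        exact (Nat.le_div_iff_mul_le (by omega)).1 hp2
      have h3 : ((PI z (T / p)).card : ℝ) ≤ (1 + δ) * ((T / p : ℕ) / Real.log (T / p : ℕ)) :=
        (Nat.cast_le.2 (card_PI_le z _)).trans (hN₀ _ (by omega))
      have h4 : ((T / p : ℕ) : ℝ) ≤ T / p := Nat.cast_div_le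
      have h5 : Real.log z ≤ Real.log (T / p : ℕ) :=
        Real.log_le_log hz0 (by exact_mod_cast (by omega : z ≤ T / p))
      calc ((PI z (T / p)).card : ℝ) ≤ (1 + δ) * ((T / p : ℕ) / Real.log (T / p : ℕ)) := h3
        _ ≤ (1 + δ) * ((T / p : ℝ) / (l / 2)) := by
            gcongr
            exact hlogz.trans h5
        _ ≤ 2 * ((T / p : ℝ) / (l / 2)) := by
            gcongr
            linarith
        _ = 4 * T / l * (1 / p) := by
            field_simp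
            ring
    refine (sum_le_sum h1).trans ?_
    rw [← mul_sum]
    have h6 : ∑ p ∈ PI z (T / (z + 1)), (1 : ℝ) / p ≤ 5 * δ := by
      rcases le_or_gt z (T / (z + 1)) with h7 | h7
      · rw [sum_PI_inv h7]
        have h8 : T / (z + 1) ≤ ⌊4 * (lam + 1) * (k : ℝ) ^ (1 + δ)⌋₊ := by
          apply Nat.le_floor
          calc ((T / (z + 1) : ℕ) : ℝ) ≤ (T : ℝ) / ((z + 1 : ℕ) : ℝ) := Nat.cast_div_le
            _ ≤ (4 * (lam + 1) * (k : ℝ) ^ 2) / Z := by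
                push_cast
                gcongr
            _ = 4 * (lam + 1) * (k : ℝ) ^ (1 + δ) := by
                rw [div_eq_iff hZ0.ne', hZ, mul_assoc (4 * (lam + 1)), hZsplit,
                  ← Real.rpow_natCast (k : ℝ) 2]
                congr 2
                push_cast
                ring
        have h9 := R1_mono h8
        rw [one_mul] at hR
        linarith
      · have : PI z (T / (z + 1)) = ∅ := by
          ext p
          rw [mem_PI]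
          constructor
          · rintro ⟨⟨h8, h9⟩, -⟩
            omega
          · intro h8
            simp at h8
        rw [this, sum_empty]
        positivity
    calc 4 * T / l * ∑ p ∈ PI z (T / (z + 1)), (1 : ℝ) / p ≤ 4 * T / l * (5 * δ) := by gcongr
      _ = 4 * (5 * δ) * T / l := by ring
  -- V
  have hVl : 1 / (γ' * (1 + δ) * l) ≤ V z := by
    rw [V_eq_QQ]
    have h1 : Real.log Z = (1 - δ) * l := by rw [hZ, Real.log_rpow hk0]
    rw [h1] at hV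
    have hQ : 0 < QQ z := by
      rw [← V_eq_QQ]
      exact V_pos z
    have h2 : 0 < (1 - δ) * l := mul_pos (by linarith) hl0
    rw [div_le_iff₀ h2, inv_le_iff_one_le_mul₀ hQ] at hV
    rw [div_le_iff₀ (by positivity)]
    calc (1 : ℝ) ≤ γ' * (1 + δ) * ((1 - δ) * l) * QQ z := hV
      _ ≤ γ' * (1 + δ) * (1 * l) * QQ z := by
          gcongr
          linarith
      _ = QQ z * (γ' * (1 + δ) * l) := by ring
  -- conclusion
  have hsum : (cnt z 0 T : ℝ) ≤ (δ + (1 + δ) / (2 - δ) + 20 * δ) * T / l := by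
    have h1 : (cnt z 0 T : ℝ) ≤ 1 + (PI z T).card + ∑ p ∈ PI z (T / (z + 1)), ((PI z (T / p)).card : ℝ) := by
      exact_mod_cast hc
    calc (cnt z 0 T : ℝ) ≤ δ * T / l + (1 + δ) / (2 - δ) * T / l + 4 * (5 * δ) * T / l := by linarith
      _ = _ := by ring
  have hfrac : (1 + δ) / (2 - δ) ≤ 1 / 2 + 2 * δ := by
    rw [div_le_iff₀ (by linarith)]
    nlinarith
  have hθδ : θ = 100 * δ := by rw [hδ]; ring
  have hcoef : (δ + (1 + δ) / (2 - δ) + 20 * δ) * (1 + δ) ≤ (1 + θ) / 2 := by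
    rw [hθδ]
    have h1 : δ + (1 + δ) / (2 - δ) + 20 * δ ≤ 1 / 2 + 23 * δ := by linarith
    calc (δ + (1 + δ) / (2 - δ) + 20 * δ) * (1 + δ) ≤ (1 / 2 + 23 * δ) * (1 + δ) := by gcongr
      _ ≤ (1 + 100 * δ) / 2 := by nlinarith
  calc (cnt z 0 T : ℝ) ≤ (δ + (1 + δ) / (2 - δ) + 20 * δ) * T / l := hsum
    _ = ((δ + (1 + δ) / (2 - δ) + 20 * δ) * (1 + δ)) * γ' * T * (1 / (γ' * (1 + δ) * l)) := by
        field_simp
    _ ≤ ((1 + θ) / 2) * γ' * T * V z := by gcongr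
    _ = γ' / 2 * (1 + θ) * (T * V z) := by ring

/-- at levels `≥ (log n)^{1-o(1)}` the Cramer constant is at least `2 exp (-γ)` -/
theorem ge_gamma {z : ℕ → ℕ} (hz : Tendsto (fun k : ℕ => Real.log (z k) / k) atTop (𝓝 0))
    (hfr : ∀ ε : ℝ, 0 < ε → ∃ᶠ k : ℕ in atTop, (k : ℝ) ^ (1 - ε) ≤ z k)
    {Ω : Type*} [MeasurableSpace Ω] {μ : Measure Ω} [IsProbabilityMeasure μ] {A : ℕ → Set Ω}
    (h : IsSievedModel μ z A) :
    ∀ᵐ ω ∂μ, ((2 * Real.exp (-Real.eulerMascheroniConstant) : ℝ) : EReal) ≤ cramerLimsup {n | ω ∈ A n} := by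
  apply ae_ge (by positivity)
  intro lam hlam hlam1
  set γ' := Real.exp Real.eulerMascheroniConstant with hγ'
  have hγ0 : 0 < γ' := Real.exp_pos _
  have h1 : γ' / 2 * lam < 1 := by
    rw [Real.exp_neg, ← hγ'] at hlam1
    calc γ' / 2 * lam < γ' / 2 * (2 * γ'⁻¹) := by gcongr
      _ = 1 := by field_simp
  obtain ⟨θ, hθ, hθ1, hθ2⟩ : ∃ θ : ℝ, 0 < θ ∧ θ ≤ 1 ∧ γ' / 2 * (1 + θ) * lam < 1 := by
    have h0 : 0 < γ' / 2 * lam := by positivity
    refine ⟨min 1 ((1 - γ' / 2 * lam) / (2 * (γ' / 2 * lam))), lt_min one_pos (div_pos (by linarith) (by positivity)),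
      min_le_left _ _, ?_⟩
    have h2 : min 1 ((1 - γ' / 2 * lam) / (2 * (γ' / 2 * lam))) ≤ (1 - γ' / 2 * lam) / (2 * (γ' / 2 * lam)) :=
      min_le_right _ _
    set θ := min 1 ((1 - γ' / 2 * lam) / (2 * (γ' / 2 * lam)))
    rw [le_div_iff₀ (by positivity)] at h2
    nlinarith
  obtain ⟨ε, hε, hε1, hev⟩ := rough_few θ hθ hθ1 lam hlam
  apply ge_of hz h hlam (by positivity) hθ2
  intro δ hδ
  have hkk : ∀ M : ℝ, ∀ᶠ k : ℕ in atTop, M ≤ (k : ℝ) := fun M =>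
    tendsto_natCast_atTop_atTop.eventually_ge_atTop M
  have hδk : ∀ᶠ k : ℕ in atTop, 1 / δ ≤ (k : ℝ) ^ ε := by
    have h1 : Tendsto (fun k : ℕ => (k : ℝ) ^ ε) atTop atTop :=
      (tendsto_rpow_atTop hε).comp tendsto_natCast_atTop_atTop
    exact h1.eventually_ge_atTop _
  refine ((hfr ε hε).and_eventually ((hev.and hδk).and (hkk 1))).mono ?_
  rintro k ⟨h2, ⟨h3, h4⟩, h5⟩
  have hk0 : (0 : ℝ) < k := by linarith
  have hX0 : 0 ≤ (k : ℝ) ^ (1 - ε) := by positivity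
  refine ⟨⌊(k : ℝ) ^ (1 - ε)⌋₊, 0, ?_, ?_, by push_cast; positivity, h3⟩
  · have : ((⌊(k : ℝ) ^ (1 - ε)⌋₊ : ℕ) : ℝ) ≤ z k := (Nat.floor_le hX0).trans h2
    exact_mod_cast this
  · refine (Nat.floor_le hX0).trans ?_
    have h6 : (k : ℝ) ^ (1 - ε) * (k : ℝ) ^ ε = k := by
      rw [← Real.rpow_add hk0, sub_add_cancel, Real.rpow_one]
    rw [div_le_iff₀ hδ] at h4
    calc (k : ℝ) ^ (1 - ε) = (k : ℝ) ^ (1 - ε) * 1 := (mul_one _).symm
      _ ≤ (k : ℝ) ^ (1 - ε) * ((k : ℝ) ^ ε * δ) := by gcongr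
      _ = δ * ((k : ℝ) ^ (1 - ε) * (k : ℝ) ^ ε) := by ring
      _ = δ * k := by rw [h6]

end Pool.Agent.W150.SM
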