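import Mathlib
import Pool.Agent.W150.SM.Up

/-! # Sieved random models: upper bound for the Cramer constant at small sieve levels (helper150) -/

set_option autoImplicit false

namespace Pool.Agent.W150.SM

open Finset MeasureTheory ProbabilityTheory Filter Topology
open Pool.Agent.H318R2.Cr

universe u

theorem log_of_small {z : ℕ → ℕ} {ε : ℝ} (h : ∀ᶠ k : ℕ in atTop, (z k : ℝ) ≤ (k : ℝ) ^ ε) :
    Tendsto (fun k : ℕ => Real.log (z k) / k) atTop (𝓝 0) := by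
  have h1 : Tendsto (fun k : ℕ => |ε| * (Real.log k / k)) atTop (𝓝 0) := by
    have h2 : Tendsto (fun k : ℕ => Real.log (k : ℝ) / k) atTop (𝓝 0) := by
      have h3 := Real.isLittleO_log_id_atTop.tendsto_div_nhds_zero
      exact h3.comp tendsto_natCast_atTop_atTop
    have := h2.const_mul |ε|
    rwa [mul_zero] at this
  refine squeeze_zero' ?_ ?_ h1
  · filter_upwards with k
    exact div_nonneg (Real.log_natCast_nonneg _) (Nat.cast_nonneg _)
  · filter_upwards [h, eventually_ge_atTop 1] with k hk hk1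
    have hk0 : (1 : ℝ) ≤ k := by exact_mod_cast hk1
    have hl : 0 ≤ Real.log k := Real.log_nonneg hk0
    rw [← mul_div_assoc]
    apply div_le_div_of_nonneg_right _ (by linarith)
    rcases Nat.eq_zero_or_pos (z k) with h4 | h4
    · rw [h4]
      simp
      positivity
    · calc Real.log (z k) ≤ Real.log ((k : ℝ) ^ ε) := Real.log_le_log (by exact_mod_cast h4) hk
        _ = ε * Real.log k := Real.log_rpow (by linarith) ε
        _ ≤ |ε| * Real.log k := by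
            apply mul_le_mul_of_nonneg_right (le_abs_self ε) hl

/-- probability of emptiness at small levels -/
theorem Emp_small (ε₁ : ℝ) (hε₁ : 0 < ε₁) : ∃ ε : ℝ, 0 < ε ∧ ∀ (z : ℕ → ℕ),
    (∀ᶠ k : ℕ in atTop, (z k : ℝ) ≤ (k : ℝ) ^ ε) → ∀ᶠ k : ℕ in atTop, ∀ a H : ℕ,
      2 ^ k ≤ a → a + H < 2 ^ (k + 1) → (k : ℝ) ^ 2 / 16 ≤ H →
      ∀ (Ω : Type u) [MeasurableSpace Ω] (μ : Measure Ω) [IsProbabilityMeasure μ] (A : ℕ → Set Ω),
        IsSievedModel μ z A → μ.real (Emp A (Ioc a (a + H))) ≤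
          Real.exp (-((1 - 2 * ε₁) * H / (((k : ℝ) + 1) * Real.log 2))) := by
  have hl2 : 0 < Real.log 2 := Real.log_pos (by norm_num)
  obtain ⟨K, x0, hK, hcl⟩ := cnt_low ε₁ hε₁
  have hK0 : (0 : ℝ) < K := by exact_mod_cast hK
  refine ⟨1 / K, by positivity, fun z hz => ?_⟩
  have hz' := log_of_small hz
  have hx0 : ∀ᶠ k : ℕ in atTop, (x0 : ℝ) ≤ (k : ℝ) ^ (1 / (K : ℝ)) := by
    have h1 : Tendsto (fun k : ℕ => (k : ℝ) ^ (1 / (K : ℝ))) atTop atTop :=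
      (tendsto_rpow_atTop (by positivity)).comp tendsto_natCast_atTop_atTop
    exact h1.eventually_ge_atTop _
  filter_upwards [hz, hx0, Vlog_ev hz', (Vk_tendsto hz').eventually_ge_atTop (4 / ε₁),
    eventually_ge_atTop 16] with k h1 h2 h3 h4 h5 a H ha haH hH Ω _ μ _ A hA
  have hk : (16 : ℝ) ≤ k := by exact_mod_cast h5
  have hV := V_pos (z k)
  have hH0 : (0 : ℝ) < H := lt_of_lt_of_le (by positivity) hH
  refine (Emp_le hA (by omega) ha haH h3).trans ?_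
  apply Real.exp_le_exp.2
  rw [neg_le_neg_iff]
  have hc := hcl (z k) a H ?_ ?_
  · rw [div_le_div_iff₀ (by positivity) (by positivity)]
    calc (1 - 2 * ε₁) * H * (V (z k) * (((k : ℝ) + 1) * Real.log 2))
        = ((1 - 2 * ε₁) * (H * V (z k))) * (((k : ℝ) + 1) * Real.log 2) := by ring
      _ ≤ cnt (z k) a H * (((k : ℝ) + 1) * Real.log 2) := by gcongr
  · have h6 : (((max (z k) x0) ^ K : ℕ) : ℝ) ≤ H := by
      push_cast
      calc (max (z k : ℝ) x0) ^ K ≤ ((k : ℝ) ^ (1 / (K : ℝ))) ^ K := by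
            apply pow_le_pow_left₀ (le_max_of_le_left (Nat.cast_nonneg _))
            exact max_le h1 h2
        _ = k := by
            rw [← Real.rpow_natCast, ← Real.rpow_mul (by positivity)]
            rw [one_div, inv_mul_cancel₀ hK0.ne', Real.rpow_one]
        _ ≤ (k : ℝ) ^ 2 / 16 := by nlinarith
        _ ≤ H := hH
    exact_mod_cast h6
  · have h6 : (k : ℝ) / 4 ≤ √(H : ℝ) := by
      apply Real.le_sqrt_of_sq_le
      have e : ((k : ℝ) / 4) ^ 2 = (k : ℝ) ^ 2 / 16 := by ring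
      rw [e]
      exact hH
    have h7 : √(H : ℝ) * √(H : ℝ) = H := Real.mul_self_sqrt hH0.le
    have h8 : 0 < √(H : ℝ) := Real.sqrt_pos.2 hH0
    rw [div_le_iff₀ hε₁] at h4
    have h9 : 1 ≤ V (z k) * √(H : ℝ) * ε₁ := by
      have : V (z k) * (k / 4) * ε₁ ≤ V (z k) * √(H : ℝ) * ε₁ := by gcongr
      linarith
    calc √(H : ℝ) = 1 * √(H : ℝ) := (one_mul _).symm
      _ ≤ V (z k) * √(H : ℝ) * ε₁ * √(H : ℝ) := by gcongr
      _ = ε₁ * (√(H : ℝ) * √(H : ℝ) * V (z k)) := by ring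
      _ = ε₁ * (H * V (z k)) := by rw [h7]

theorem summable_exp_neg {c : ℝ} (hc : 0 < c) : Summable (fun k : ℕ => Real.exp (-(c * k))) := by
  have h1 : (fun k : ℕ => Real.exp (-(c * k))) = fun k : ℕ => (Real.exp (-c)) ^ k := by
    ext k
    rw [← Real.exp_nat_mul]
    congr 1
    ring
  rw [h1]
  exact summable_geometric_of_lt_one (Real.exp_pos _).le (by rw [Real.exp_lt_one_iff]; linarith)

/-- length of the intervals, upper bound part -/
noncomputable def Hu (lam : ℝ) (k : ℕ) : ℕ := ⌊lam * ((k : ℝ) * Real.log 2) ^ 2⌋₊ - 1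

noncomputable def Gu (lam : ℝ) (k : ℕ) : ℕ := ⌊lam * ((k : ℝ) * Real.log 2) ^ 2 / 4⌋₊

theorem len_facts (η : ℝ) (hη : 0 < η) (ε₁ : ℝ) (hε₁0 : 0 < ε₁) (hε₁' : ε₁ ≤ 1 / 8)
    (hprod : (1 - 2 * ε₁) * (1 + η) = 1 + 3 * η / 4) :
    ∀ᶠ k : ℕ in atTop, 2 ≤ (1 + η) * ((k : ℝ) * Real.log 2) ^ 2 ∧
      (k : ℝ) ^ 2 / 16 ≤ Hu (1 + η) k ∧ (k : ℝ) ^ 2 / 16 ≤ Gu (1 + η) k ∧
      (1 + η / 2) * (k * Real.log 2) ≤ (1 - 2 * ε₁) * Hu (1 + η) k / (((k : ℝ) + 1) * Real.log 2) ∧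
      (Hu (1 + η) k : ℝ) + 1 ≤ (1 + η) * ((k : ℝ) * Real.log 2) ^ 2 ∧
      (Gu (1 + η) k : ℝ) + Gu (1 + η) (k + 1) + 1 ≤ (1 + η) * ((k : ℝ) * Real.log 2) ^ 2 ∧
      (Gu (1 + η) k : ℝ) + 2 ≤ (2 : ℝ) ^ ((1 : ℝ) * k) := by
  have hl2 : 0 < Real.log 2 := Real.log_pos (by norm_num)
  have hl2' : Real.log 2 ≤ 1 := by
    have := Real.log_two_lt_d9
    linarith
  have hl2'' : 0.69 ≤ Real.log 2 := by
    have := Real.log_two_gt_d9
    linarith
  have hkk : ∀ M : ℝ, ∀ᶠ k : ℕ in atTop, M ≤ (k : ℝ) := fun M =>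
    tendsto_natCast_atTop_atTop.eventually_ge_atTop M
  set lam : ℝ := 1 + η with hlam
  have hlam0 : 0 < lam := by linarith
  filter_upwards [hkk 100, hkk (16 / η * (1 + η / 2)), poly_exp (lam + 2) 1 one_pos] with k k1 k2 k3
  have hk0 : (0 : ℝ) < k := by linarith
  set Y := ((k : ℝ) * Real.log 2) ^ 2 with hY
  have e1 : 0.47 * (k : ℝ) ^ 2 ≤ Y := by
    have : (k : ℝ) * 0.69 ≤ (k : ℝ) * Real.log 2 := by gcongr
    have h2 : ((k : ℝ) * 0.69) ^ 2 ≤ ((k : ℝ) * Real.log 2) ^ 2 := pow_le_pow_left₀ (by positivity) this 2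
    have h3 : ((k : ℝ) * 0.69) ^ 2 = 0.4761 * (k : ℝ) ^ 2 := by ring
    have h4 : (0 : ℝ) ≤ (k : ℝ) ^ 2 := by positivity
    linarith
  have hY0 : 0 ≤ Y := by positivity
  have hkk2 : 100 * (k : ℝ) ≤ (k : ℝ) ^ 2 := by nlinarith
  set X := lam * Y with hX
  have hXY : X = Y + η * Y := by rw [hX, hlam]; ring
  have hηY : 0 ≤ η * Y := by positivity
  have hX0 : 0.47 * (k : ℝ) ^ 2 ≤ X := by linarith
  have hX1 : 2 ≤ X := by linarith
  have f1 : (⌊X⌋₊ : ℝ) ≤ X := Nat.floor_le (by linarith)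
  have f2 : X < ⌊X⌋₊ + 1 := Nat.lt_floor_add_one X
  have f3 : 2 ≤ ⌊X⌋₊ := Nat.le_floor (by exact_mod_cast hX1)
  have f4 : (Hu lam k : ℝ) = ⌊X⌋₊ - 1 := by
    unfold Hu
    rw [← hY, ← hX, Nat.cast_sub (by omega)]
    simp
  have g1 : (Gu lam k : ℝ) ≤ X / 4 := by
    unfold Gu
    rw [← hY, ← hX]
    exact Nat.floor_le (by linarith)
  have g2 : X / 4 < Gu lam k + 1 := by
    unfold Gu
    rw [← hY, ← hX]
    exact Nat.lt_floor_add_one _
  have g3 : (Gu lam (k + 1) : ℝ) ≤ lam * ((((k + 1 : ℕ) : ℝ)) * Real.log 2) ^ 2 / 4 := by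
    unfold Gu
    exact Nat.floor_le (by positivity)
  refine ⟨hX1, ?_, ?_, ?_, ?_, ?_, ?_⟩
  · rw [f4]
    linarith
  · linarith
  · rw [f4, le_div_iff₀ (by positivity)]
    have s1 : X - 2 ≤ (⌊X⌋₊ : ℝ) - 1 := by linarith
    have s2 : 0 ≤ 1 - 2 * ε₁ := by linarith
    have s3 : (1 - 2 * ε₁) * (X - 2) ≤ (1 - 2 * ε₁) * ((⌊X⌋₊ : ℝ) - 1) :=
      mul_le_mul_of_nonneg_left s1 s2
    refine le_trans ?_ s3
    have s4 : (1 - 2 * ε₁) * (X - 2) = (1 + 3 * η / 4) * Y - 2 * (1 - 2 * ε₁) := by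
      rw [hX, ← hprod]
      ring
    rw [s4]
    have s5 : (1 + η / 2) * (k * Real.log 2) * (((k : ℝ) + 1) * Real.log 2) =
        (1 + η / 2) * Y + (1 + η / 2) * k * (Real.log 2) ^ 2 := by rw [hY]; ring
    rw [s5]
    have s6 : (1 + η / 2) * 16 ≤ η * k := by
      calc (1 + η / 2) * 16 = η * (16 / η * (1 + η / 2)) := by field_simp
        _ ≤ η * k := by gcongr
    have s7 : (Real.log 2) ^ 2 ≤ 1 := by nlinarith
    have s8 : (1 + η / 2) * k * (Real.log 2) ^ 2 ≤ (1 + η / 2) * k * 1 := by gcongr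
    have s9 : (1 + η / 2) * 16 * k ≤ η * k * k := by gcongr
    have s10 : η * (0.47 * (k : ℝ) ^ 2) ≤ η * Y := by gcongr
    have s15 : η * k * 100 ≤ η * (k : ℝ) ^ 2 := by nlinarith
    have s16 : η * k * k = η * (k : ℝ) ^ 2 := by ring
    rw [s16] at s9
    have s17 : η * (0.47 * (k : ℝ) ^ 2) = 0.47 * (η * (k : ℝ) ^ 2) := by ring
    rw [s17] at s10
    have s18 : (1 + 3 * η / 4) * Y = Y + 3 / 4 * (η * Y) := by ring
    have s19 : (1 + η / 2) * Y = Y + 1 / 2 * (η * Y) := by ring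
    rw [s18, s19]
    have s20 : 0 ≤ η * (k : ℝ) ^ 2 := by positivity
    linarith
  · rw [f4]
    linarith
  · have g4 : (((k + 1 : ℕ) : ℝ)) = k + 1 := by push_cast; rfl
    rw [g4] at g3
    have g5 : lam * (((k : ℝ) + 1) * Real.log 2) ^ 2 / 4 = X / 4 + lam * (2 * k + 1) * (Real.log 2) ^ 2 / 4 := by
      rw [hX, hY]; ring
    rw [g5] at g3
    have g6 : lam * (2 * k + 1) * (Real.log 2) ^ 2 / 4 ≤ X / 16 := by
      have g7 : 2 * (k : ℝ) + 1 ≤ (k : ℝ) ^ 2 / 4 := by linarith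
      have g8 : lam * (2 * k + 1) * (Real.log 2) ^ 2 / 4 ≤ lam * ((k : ℝ) ^ 2 / 4) * (Real.log 2) ^ 2 / 4 := by
        gcongr
      have g9 : lam * ((k : ℝ) ^ 2 / 4) * (Real.log 2) ^ 2 / 4 = X / 16 := by rw [hX, hY]; ring
      rw [g9] at g8
      exact g8
    linarith
  · rw [one_mul] at k3 ⊢
    refine le_trans ?_ k3
    have g10 : X ≤ lam * ((k : ℝ) + 1) ^ 2 := by
      rw [hX, hY]
      have : (k : ℝ) * Real.log 2 ≤ k + 1 := by nlinarith
      gcongr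
    have g11 : (lam + 2) * ((k : ℝ) + 1) ^ 2 = lam * ((k : ℝ) + 1) ^ 2 + 2 * ((k : ℝ) + 1) ^ 2 := by ring
    have g12 : 1 ≤ ((k : ℝ) + 1) ^ 2 := by nlinarith
    rw [g11]
    linarith

theorem upper (η : ℝ) (hη : 0 < η) : ∃ ε : ℝ, 0 < ε ∧ ∀ (z : ℕ → ℕ),
    (∀ᶠ k : ℕ in atTop, (z k : ℝ) ≤ (k : ℝ) ^ ε) →
    ∀ (Ω : Type u) [MeasurableSpace Ω] (μ : Measure Ω) [IsProbabilityMeasure μ] (A : ℕ → Set Ω),
    IsSievedModel μ z A →
      ∀ᵐ ω ∂μ, cramerLimsup {n | ω ∈ A n} ≤ ((1 + η : ℝ) : EReal) := by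
  classical
  have hl2 : 0 < Real.log 2 := Real.log_pos (by norm_num)
  have hl2' : Real.log 2 ≤ 1 := by
    have := Real.log_two_lt_d9
    linarith
  have hl2'' : 0.69 ≤ Real.log 2 := by
    have := Real.log_two_gt_d9
    linarith
  set lam : ℝ := 1 + η with hlam
  have hlam0 : 0 < lam := by linarith
  set ε₁ : ℝ := η / (8 * (1 + η)) with hε₁
  have hε₁0 : 0 < ε₁ := by positivity
  have hε₁' : ε₁ ≤ 1 / 8 := by
    rw [hε₁, div_le_div_iff₀ (by positivity) (by norm_num)]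
    linarith
  have hprod : (1 - 2 * ε₁) * lam = 1 + 3 * η / 4 := by
    rw [hε₁, hlam]
    field_simp
    ring
  obtain ⟨ε, hε, hE⟩ := Emp_small.{u} ε₁ hε₁0
  refine ⟨ε, hε, fun z hz Ω _ μ _ A hA => ?_⟩
  have hz' := log_of_small hz
  have hev := hE z hz
  -- growth of k
  have hkk : ∀ M : ℝ, ∀ᶠ k : ℕ in atTop, M ≤ (k : ℝ) := fun M =>
    tendsto_natCast_atTop_atTop.eventually_ge_atTop M
  have hH := len_facts η hη ε₁ hε₁0 hε₁' hprod
  rw [← hlam] at hH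
  -- events
  have hsumA : Summable (fun k : ℕ => Real.exp (-(η / 2 * Real.log 2 * k))) := summable_exp_neg (by positivity)
  have hsumB : Summable (fun k : ℕ => Real.exp (-((1 : ℝ) / 64 * k))) := summable_exp_neg (by norm_num)
  set FA : ℕ → Set Ω := fun k => ⋃ a ∈ (Ico (2 ^ k) (2 ^ (k + 1))).filter (fun a => a + Hu lam k < 2 ^ (k + 1)),
    Emp A (Ioc a (a + Hu lam k)) with hFA
  have hA1 : ∀ᶠ k : ℕ in atTop, μ.real (FA k) ≤ Real.exp (-(η / 2 * Real.log 2 * k)) := by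
    filter_upwards [hev, hH] with k h1 h2
    obtain ⟨-, h3, -, h4, -⟩ := h2
    rw [hFA]
    refine (measureReal_biUnion_finset_le _ _).trans ?_
    have h5 : ∀ a ∈ (Ico (2 ^ k) (2 ^ (k + 1))).filter (fun a => a + Hu lam k < 2 ^ (k + 1)),
        μ.real (Emp A (Ioc a (a + Hu lam k))) ≤ Real.exp (-((1 + η / 2) * (k * Real.log 2))) := by
      intro a ha
      rw [mem_filter, mem_Ico] at ha
      refine (h1 a (Hu lam k) ha.1.1 ha.2 h3 Ω μ A hA).trans ?_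
      apply Real.exp_le_exp.2
      rw [neg_le_neg_iff]
      exact h4
    refine (sum_le_sum h5).trans ?_
    rw [sum_const, nsmul_eq_mul]
    have h6 : (((Ico (2 ^ k) (2 ^ (k + 1))).filter (fun a => a + Hu lam k < 2 ^ (k + 1))).card : ℝ) ≤
        Real.exp (k * Real.log 2) := by
      have h7 : ((Ico (2 ^ k) (2 ^ (k + 1))).filter (fun a => a + Hu lam k < 2 ^ (k + 1))).card ≤ 2 ^ k := by
        refine (card_filter_le _ _).trans ?_
        rw [Nat.card_Ico, pow_succ]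
        omega
      have h8 : Real.exp (k * Real.log 2) = ((2 ^ k : ℕ) : ℝ) := by
        push_cast
        rw [← Real.rpow_natCast, Real.rpow_def_of_pos (by norm_num), mul_comm]
      rw [h8]
      exact_mod_cast h7
    calc _ ≤ Real.exp (k * Real.log 2) * Real.exp (-((1 + η / 2) * (k * Real.log 2))) := by gcongr
      _ = _ := by
          rw [← Real.exp_add]
          congr 1
          ring
  have hB0 : ∀ᶠ k : ℕ in atTop, Gu lam k + 2 ≤ 2 ^ k ∧ ∀ a : ℕ, 2 ^ k ≤ a → a + Gu lam k < 2 ^ (k + 1) →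
      μ.real (Emp A (Ioc a (a + Gu lam k))) ≤ Real.exp (-((1 : ℝ) / 64 * k)) := by
    filter_upwards [hev, hH, hkk 16] with k h1 h2 h3
    obtain ⟨-, -, h4, -, -, -, h5⟩ := h2
    refine ⟨?_, fun a ha1 ha2 => ?_⟩
    · rw [one_mul, Real.rpow_natCast] at h5
      exact_mod_cast h5
    · refine (h1 a (Gu lam k) ha1 ha2 h4 Ω μ A hA).trans ?_
      apply Real.exp_le_exp.2
      rw [neg_le_neg_iff, le_div_iff₀ (by positivity)]
      have h6 : (1 : ℝ) / 2 ≤ 1 - 2 * ε₁ := by linarith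
      calc 1 / 64 * (k : ℝ) * (((k : ℝ) + 1) * Real.log 2) ≤ 1 / 64 * (k : ℝ) * (((k : ℝ) + 1) * 1) := by gcongr
        _ ≤ 1 / 2 * ((k : ℝ) ^ 2 / 16) := by nlinarith
        _ ≤ (1 - 2 * ε₁) * Gu lam k := by
            apply mul_le_mul h6 h4 (by positivity) (by linarith)
  have hB1 : ∀ᶠ k : ℕ in atTop, μ.real (Emp A (Ioc (2 ^ k) (2 ^ k + Gu lam k))) ≤
      Real.exp (-((1 : ℝ) / 64 * k)) := by
    filter_upwards [hB0] with k h
    exact h.2 _ le_rfl (by rw [pow_succ]; omega)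
  have hC1 : ∀ᶠ k : ℕ in atTop, μ.real (Emp A (Ioc (2 ^ (k + 1) - 1 - Gu lam k)
      (2 ^ (k + 1) - 1 - Gu lam k + Gu lam k))) ≤ Real.exp (-((1 : ℝ) / 64 * k)) := by
    filter_upwards [hB0] with k h
    apply h.2
    · have := h.1
      rw [pow_succ]
      omega
    · have := h.1
      rw [pow_succ]
      omega
  filter_upwards [infinite_ae hz' hA, bc hsumA hA1, bc hsumB hB1, bc hsumB hC1] with ω w0 w1 w2 w3
  apply limsup_le w0 (Hu lam) (Gu lam)
  · exact hH.mono fun k h => h.2.2.2.2.1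
  · exact hH.mono fun k h => h.2.2.2.2.2.1
  · filter_upwards [w1] with k hk a ha1 ha2
    rw [hFA] at hk
    simp only [Set.mem_iUnion, not_exists] at hk
    have h1 := hk a (by rw [mem_filter, mem_Ico]; exact ⟨⟨ha1, by omega⟩, ha2⟩)
    rw [mem_Emp] at h1
    push Not at h1
    exact h1
  · filter_upwards [w2] with k hk
    rw [mem_Emp] at hk
    push Not at hk
    obtain ⟨n, hn1, hn2⟩ := hk
    rw [mem_Ioc] at hn1
    exact ⟨n, hn2, by omega, by omega⟩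
  · filter_upwards [w3, hB0] with k hk hB
    rw [mem_Emp] at hk
    push Not at hk
    obtain ⟨n, hn1, hn2⟩ := hk
    rw [mem_Ioc] at hn1
    have := hB.1
    have h2 : 2 ^ (k + 1) = 2 ^ k * 2 := pow_succ 2 k
    exact ⟨n, hn2, by omega, by omega⟩

end Pool.Agent.W150.SM
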