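import Mathlib
import Pool.Agent.W150.SM.GoodOf

/-! # Sieved random models exist (helper150) -/

set_option autoImplicit false

namespace Pool.Agent.W150.SM

open Finset MeasureTheory ProbabilityTheory Filter Topology
open Pool.Agent.H318R2.Cr

/-- the law of one coordinate -/
noncomputable def coin (p : ℝ) : Measure Bool :=
  ENNReal.ofReal p • Measure.dirac true + ENNReal.ofReal (1 - p) • Measure.dirac false

theorem coin_true (p : ℝ) : coin p {true} = ENNReal.ofReal p := by
  unfold coin
  simp

theorem coin_prob {p : ℝ} (h0 : 0 ≤ p) (h1 : p ≤ 1) : IsProbabilityMeasure (coin p) := by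
  refine ⟨?_⟩
  unfold coin
  simp only [Measure.coe_add, Measure.coe_smul, Pi.add_apply, Pi.smul_apply, measure_univ, smul_eq_mul, mul_one]
  rw [← ENNReal.ofReal_add h0 (by linarith)]
  simp

theorem exists_model (z : ℕ → ℕ) : ∃ μ : Measure (ℕ → Bool), IsProbabilityMeasure μ ∧
    IsSievedModel μ z (fun n => {ω | ω n = true}) := by
  classical
  have hp : ∀ n, IsProbabilityMeasure (coin (keepProb z n)) := fun n =>
    coin_prob (keepProb_nonneg z n (V_nonneg _)) (keepProb_le_one z n)
  set μ : Measure (ℕ → Bool) := Measure.infinitePi (fun n => coin (keepProb z n)) with hμ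
  have hm : ∀ n : ℕ, MeasurableSet {ω : ℕ → Bool | ω n = true} := fun n =>
    measurableSet_eq_fun (measurable_pi_apply n) measurable_const
  have key : ∀ s : Finset ℕ, μ (⋂ i ∈ s, {ω : ℕ → Bool | ω i = true}) =
      ∏ i ∈ s, ENNReal.ofReal (keepProb z i) := by
    intro s
    have e : (⋂ i ∈ s, {ω : ℕ → Bool | ω i = true}) = Set.pi s (fun _ => {true}) := by
      ext ω
      simp
    rw [e, hμ, Measure.infinitePi_pi _ (fun i _ => MeasurableSet.singleton true)]
    exact Finset.prod_congr rfl fun i _ => coin_true _
  refine ⟨μ, inferInstance, hm, ?_, ?_⟩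
  · rw [iIndepSet_iff_meas_biInter hm]
    intro s
    rw [key]
    refine Finset.prod_congr rfl fun i _ => ?_
    have := key {i}
    simpa using this.symm
  · intro n
    have := key {n}
    simpa using this

end Pool.Agent.W150.SM
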